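import Mathlib

set_option autoImplicit false

/-! # Polynomial maps `ℤ → A` graded by blocks -/

namespace Pool.Agent.W_MP_cae956

variable {A : Type*} [AddCommGroup A]

/-- Iterated forward difference. -/
def Di (j : ℕ) (f : ℤ → A) : ℤ → A := (fwdDiff (1 : ℤ))^[j] f

theorem Di_zero (f : ℤ → A) : Di 0 f = f := rfl

theorem Di_succ (j : ℕ) (f : ℤ → A) (n : ℤ) : Di (j + 1) f n = Di j f (n + 1) - Di j f n := by
  unfold Di
  rw [Function.iterate_succ_apply']
  rfl

theorem Di_add (j : ℕ) (f g : ℤ → A) : Di j (f + g) = Di j f + Di j g := by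
  unfold Di
  exact fwdDiff_iter_add _ _ _ _

theorem Di_neg (j : ℕ) (f : ℤ → A) : Di j (-f) = -Di j f := by
  have h := Di_add j f (-f)
  rw [add_neg_cancel] at h
  have h0 : Di j (0 : ℤ → A) = 0 := by
    have h1 := Di_add j (0 : ℤ → A) 0
    rw [add_zero] at h1
    exact left_eq_add.1 h1
  rw [h0] at h
  exact (neg_eq_of_add_eq_zero_right h.symm).symm

theorem Di_sub (j : ℕ) (f g : ℤ → A) : Di j (f - g) = Di j f - Di j g := by
  rw [sub_eq_add_neg, Di_add, Di_neg, ← sub_eq_add_neg]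

/-- Shift. -/
def shf (s : ℤ) (f : ℤ → A) : ℤ → A := fun n => f (n + s)

theorem Di_sh (j : ℕ) (s : ℤ) (f : ℤ → A) : Di j (shf s f) = shf s (Di j f) := by
  induction j with
  | zero => rfl
  | succ j ih =>
    funext n
    rw [Di_succ, ih]
    show Di j f (n + 1 + s) - Di j f (n + s) = Di (j + 1) f (n + s)
    rw [Di_succ]
    congr 2
    ring

theorem Di_const (j : ℕ) (hj : 1 ≤ j) (a : A) : Di j (fun _ => a) = 0 := by
  obtain ⟨j, rfl⟩ := Nat.exists_eq_add_of_le' hj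
  induction j with
  | zero =>
    funext n
    rw [Di_succ]
    simp [Di_zero]
  | succ j ih =>
    funext n
    rw [Di_succ, ih (by omega)]
    simp

theorem sub_mem_of_step {S : AddSubgroup A} {g : ℤ → A} (h : ∀ n, g (n + 1) - g n ∈ S)
    (n s : ℤ) : g (n + s) - g n ∈ S := by
  induction s using Int.induction_on with
  | zero => simp
  | succ i ih =>
    have h1 := S.add_mem (h (n + i)) ih
    have h2 : g (n + i + 1) - g (n + i) + (g (n + i) - g n) = g (n + (i + 1)) - g n := by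
      rw [add_assoc n]; abel
    rwa [h2] at h1
  | pred i ih =>
    have h1 := S.sub_mem ih (h (n + (-i - 1)))
    have h2 : g (n + -i) - g n - (g (n + (-i - 1) + 1) - g (n + (-i - 1)))
        = g (n + (-i - 1)) - g n := by
      rw [show n + (-(i : ℤ) - 1) + 1 = n + -i by ring]; abel
    rwa [h2] at h1

/-- The subgroup of values allowed for the `j`-th difference. -/
def K (H : ℕ → AddSubgroup A) (t m j : ℕ) : AddSubgroup A :=
  ⨆ i : {i : ℕ // i ≤ t ∧ t + j ≤ i + m}, H i.1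

variable {H : ℕ → AddSubgroup A}

theorem K_le {t m j t' m' j' : ℕ}
    (h : ∀ i, i ≤ t ∧ t + j ≤ i + m → i ≤ t' ∧ t' + j' ≤ i + m') :
    K H t m j ≤ K H t' m' j' :=
  iSup_le fun i => le_iSup (fun i : {i : ℕ // i ≤ t' ∧ t' + j' ≤ i + m'} => H i.1) ⟨i.1, h _ i.2⟩

theorem K_eq_bot {t m j : ℕ} (h : ∀ i, ¬ (i ≤ t ∧ t + j ≤ i + m)) : K H t m j = ⊥ := by
  refine eq_bot_iff.2 (iSup_le fun i => absurd i.2 (h _))

theorem K_top (t m : ℕ) : K H t m m ≤ H t := by
  refine iSup_le fun i => ?_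
  have : i.1 = t := by
    have := i.2
    omega
  rw [this]

theorem le_K {t m j : ℕ} (h : j ≤ m) : H t ≤ K H t m j :=
  le_iSup (fun i : {i : ℕ // i ≤ t ∧ t + j ≤ i + m} => H i.1) ⟨t, le_rfl, by omega⟩

/-- Polynomial maps of type `t` and degree at most `m`. -/
def C (H : ℕ → AddSubgroup A) (t m : ℕ) (f : ℤ → A) : Prop :=
  ∀ j, 1 ≤ j → ∀ n, Di j f n ∈ K H t m j

theorem C.add {t m : ℕ} {f g : ℤ → A} (hf : C H t m f) (hg : C H t m g) : C H t m (f + g) := by
  intro j hj n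
  rw [Di_add]
  exact (K H t m j).add_mem (hf j hj n) (hg j hj n)

theorem C.neg {t m : ℕ} {f : ℤ → A} (hf : C H t m f) : C H t m (-f) := by
  intro j hj n
  rw [Di_neg]
  exact (K H t m j).neg_mem (hf j hj n)

theorem C.sub {t m : ℕ} {f g : ℤ → A} (hf : C H t m f) (hg : C H t m g) : C H t m (f - g) := by
  rw [sub_eq_add_neg]
  exact hf.add hg.neg

theorem C.sh {t m : ℕ} {f : ℤ → A} (hf : C H t m f) (s : ℤ) : C H t m (shf s f) := by
  intro j hj n
  rw [Di_sh]
  exact hf j hj _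

theorem C_const (t m : ℕ) (a : A) : C H t m (fun _ => a) := by
  intro j hj n
  rw [Di_const j hj]
  exact zero_mem _

theorem C.mono {t m m' : ℕ} {f : ℤ → A} (hf : C H t m f) (h : m ≤ m') : C H t m' f :=
  fun j hj n => K_le (fun i hi => ⟨hi.1, by omega⟩) (hf j hj n)

/-- Passing to a bigger type at a compatible level. -/
theorem C.up {t m t' m' : ℕ} {f : ℤ → A} (hf : C H t' m' f) (h : t' ≤ t) (h2 : t + m' ≤ t' + m) :
    C H t m f :=
  fun j hj n => K_le (fun i hi => ⟨by omega, by omega⟩) (hf j hj n)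

theorem C.diff {t m : ℕ} {f : ℤ → A} (hf : C H t (m + 1) f) (s : ℤ) : C H t m (shf s f - f) := by
  intro j hj n
  rw [Di_sub, Di_sh]
  have h : ∀ n, Di j f (n + 1) - Di j f n ∈ K H t m j := by
    intro n
    rw [← Di_succ]
    exact K_le (fun i hi => ⟨hi.1, by omega⟩) (hf (j + 1) (by omega) n)
  exact sub_mem_of_step h n s

/-- Leading coefficient of a map of degree at most `m`. -/
def lc (m : ℕ) (f : ℤ → A) : A := Di m f 0

theorem lc_add (m : ℕ) (f g : ℤ → A) : lc m (f + g) = lc m f + lc m g := by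
  unfold lc; rw [Di_add]; rfl

theorem lc_sub (m : ℕ) (f g : ℤ → A) : lc m (f - g) = lc m f - lc m g := by
  unfold lc; rw [Di_sub]; rfl

theorem lc_neg (m : ℕ) (f : ℤ → A) : lc m (-f) = -lc m f := by
  unfold lc; rw [Di_neg]; rfl

theorem C.Di_eq {t m : ℕ} {f : ℤ → A} (hf : C H t m f) (n : ℤ) : Di m f n = lc m f := by
  have h : ∀ n, Di m f (n + 1) - Di m f n ∈ (⊥ : AddSubgroup A) := by
    intro n
    rw [← Di_succ]
    have h1 := hf (m + 1) (by omega) n
    rwa [K_eq_bot (fun i hi => by omega)] at h1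
  have h2 := sub_mem_of_step h 0 n
  rw [zero_add, AddSubgroup.mem_bot, sub_eq_zero] at h2
  exact h2

theorem C.lc_mem {t m : ℕ} {f : ℤ → A} (hf : C H t m f) (hm : 1 ≤ m) : lc m f ∈ H t :=
  K_top t m (hf m hm 0)

theorem C.lc_sh {t m : ℕ} {f : ℤ → A} (hf : C H t m f) (s : ℤ) : lc m (shf s f) = lc m f := by
  show Di m _ 0 = _
  rw [Di_sh]
  exact hf.Di_eq _

theorem C.lc_eq_zero {t m m' : ℕ} {f : ℤ → A} (hf : C H t m f) (h : m < m') : lc m' f = 0 := by
  have h1 := hf m' (by omega) 0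
  rw [K_eq_bot (fun i hi => by omega)] at h1
  exact h1

/-- The leading coefficient of a map of smaller type at a compatible level vanishes. -/
theorem C.lc_eq_zero' {t m t' m' : ℕ} {f : ℤ → A} (hf : C H t' m' f) (hm : 1 ≤ m) (h : t' < t)
    (h2 : t + m' ≤ t' + m) : lc m f = 0 := by
  have h1 := hf m hm 0
  rw [K_eq_bot (fun i hi => by omega)] at h1
  exact h1

theorem affine_of_step {g : ℤ → A} {a : A} (h : ∀ n, g (n + 1) - g n = a) (s : ℤ) :
    g s = g 0 + s • a := by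
  have h1 : ∀ n, (g (n + 1) - (n + 1) • a) - (g n - n • a) ∈ (⊥ : AddSubgroup A) := by
    intro n
    rw [AddSubgroup.mem_bot, ← h n, add_smul, one_smul, h n]
    have := h n
    rw [sub_eq_iff_eq_add] at this
    rw [this]; abel
  have h2 := sub_mem_of_step (g := fun n => g n - n • a) h1 0 s
  rw [AddSubgroup.mem_bot, zero_add, zero_smul, sub_zero, sub_eq_zero] at h2
  rw [← h2]; abel

theorem C.lc_diff {t m : ℕ} {f : ℤ → A} (hf : C H t (m + 1) f) (s : ℤ) :
    lc m (shf s f - f) = s • lc (m + 1) f := by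
  rw [lc_sub]
  show Di m (shf s f) 0 - Di m f 0 = _
  rw [Di_sh]
  have h : ∀ n, Di m f (n + 1) - Di m f n = lc (m + 1) f := by
    intro n
    rw [← Di_succ]
    exact hf.Di_eq n
  show Di m f (0 + s) - Di m f 0 = _
  rw [zero_add, affine_of_step h s, add_sub_cancel_left]

/-- Affine maps. -/
theorem C.affine {t : ℕ} {f : ℤ → A} (hf : C H t 1 f) (n : ℤ) : f n = f 0 + n • lc 1 f := by
  refine affine_of_step (fun n => ?_) n
  have h := hf.Di_eq n
  rw [Di_succ] at h
  exact h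

theorem C.const {t : ℕ} {f : ℤ → A} (hf : C H t 0 f) (n : ℤ) : f n = f 0 := hf.Di_eq n

/-- Regular maps of type `t` and degree exactly `m`. -/
def Reg (H : ℕ → AddSubgroup A) (t m : ℕ) (f : ℤ → A) : Prop :=
  1 ≤ m ∧ C H t m f ∧ lc m f ≠ 0

theorem Reg.neg {t m : ℕ} {f : ℤ → A} (hf : Reg H t m f) : Reg H t m (-f) :=
  ⟨hf.1, hf.2.1.neg, by rw [lc_neg]; exact neg_ne_zero.2 hf.2.2⟩

theorem Reg.sh {t m : ℕ} {f : ℤ → A} (hf : Reg H t m f) (s : ℤ) : Reg H t m (shf s f) :=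
  ⟨hf.1, hf.2.1.sh s, by rw [hf.2.1.lc_sh]; exact hf.2.2⟩

theorem Reg.add_const {t m : ℕ} {f : ℤ → A} (hf : Reg H t m f) (a : A) :
    Reg H t m (f + fun _ => a) :=
  ⟨hf.1, hf.2.1.add (C_const t m a), by
    rw [lc_add]
    have : lc m (fun _ => a : ℤ → A) = 0 := by
      unfold lc; rw [Di_const m hf.1]; rfl
    rw [this, add_zero]; exact hf.2.2⟩

theorem Reg.le {t m m' : ℕ} {f : ℤ → A} (hf : Reg H t m f) (h : C H t m' f) : m ≤ m' := by
  by_contra hcon
  exact hf.2.2 (h.lc_eq_zero (not_le.1 hcon))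

/-- No torsion in the blocks of index at least two. -/
def TF (H : ℕ → AddSubgroup A) : Prop :=
  ∀ t, 2 ≤ t → ∀ a ∈ H t, a ≠ 0 → ∀ s : ℤ, s ≠ 0 → s • a ≠ 0

/-- The key lemma on shifts, for two maps of the same type. -/
theorem Reg.shift_sub (hH : TF H) {t m m'' : ℕ} {f g : ℤ → A} (hf : Reg H t m f) (hmt : m ≤ t)
    (hfg : Reg H t m'' (f - g)) :
    ∃ B : Finset ℤ, ∀ s ∉ B, ∃ m', Reg H t m' (shf s f - g) := by
  obtain ⟨m, rfl⟩ := Nat.exists_eq_add_of_le' hf.1
  have heq : ∀ s, shf s f - g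
      = (shf s f - f) + (f - g) := fun s => by abel
  by_cases hm : m < m''
  · refine ⟨∅, fun s _ => ⟨m'', hfg.1, ?_, ?_⟩⟩
    · rw [heq]
      exact ((hf.2.1.diff s).mono hm.le).add hfg.2.1
    · rw [heq, lc_add, (hf.2.1.diff s).lc_eq_zero hm, zero_add]
      exact hfg.2.2
  · have hm' : m'' ≤ m := not_lt.1 hm
    have hfin : {s : ℤ | s • lc (m + 1) f + lc m (f - g) = 0}.Subsingleton := by
      intro s hs s' hs'
      by_contra hne
      have hm1 := hfg.1
      refine hH t (by omega) _ (hf.2.1.lc_mem (by omega)) hf.2.2 (s - s') (sub_ne_zero.2 hne) ?_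
      have h1 : s • lc (m + 1) f + lc m (f - g) = 0 := hs
      have h2 : s' • lc (m + 1) f + lc m (f - g) = 0 := hs'
      rw [sub_smul]
      have h3 := h1.trans h2.symm
      rw [add_right_cancel h3, sub_self]
    refine ⟨hfin.finite.toFinset, fun s hs => ⟨m, hfg.1.trans hm', ?_, ?_⟩⟩
    · rw [heq]
      exact (hf.2.1.diff s).add (hfg.2.1.mono hm')
    · rw [heq, lc_add, hf.2.1.lc_diff]
      intro h0
      exact hs (hfin.finite.mem_toFinset.2 h0)

end Pool.Agent.W_MP_cae956
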