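import Mathlib

set_option autoImplicit false

/-! # Topological weak mixing -/

namespace Pool.Agent.W_MP_cae956

/-- A homeomorphism `g` of `X` is topologically weakly mixing if `g × g` is topologically
transitive: some point of `X × X` has a dense orbit under `g × g`. -/
def WeaklyMixing {X : Type*} [TopologicalSpace X] (g : X ≃ₜ X) : Prop :=
  ∃ z : X × X, Dense (Set.range fun n : ℤ => ((g ^ n) z.1, (g ^ n) z.2))

end Pool.Agent.W_MP_cae956
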