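import Pool.Agent.W_MP_cae956.Alg

set_option autoImplicit false
set_option linter.unusedSectionVars false

/-! # Return times of weakly mixing elements of an abelian group acting minimally -/

open scoped Pointwise

namespace Pool.Agent.W_MP_cae956

/-- Syndetic sets of integers. -/
def Synd (S : Set ℤ) : Prop := ∃ D : Finset ℤ, ∀ m : ℤ, ∃ d ∈ D, m + d ∈ S

/-- Thickly syndetic sets of integers. -/
def TS (S : Set ℤ) : Prop := ∀ E : Finset ℤ, Synd {m | ∀ e ∈ E, m + e ∈ S}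

theorem Synd.mono {S T : Set ℤ} (h : Synd S) (hST : S ⊆ T) : Synd T := by
  obtain ⟨D, hD⟩ := h
  exact ⟨D, fun m => (hD m).imp fun d hd => ⟨hd.1, hST hd.2⟩⟩

theorem TS.inter {S T : Set ℤ} (hS : TS S) (hT : TS T) : TS (S ∩ T) := by
  intro E
  obtain ⟨D, hD⟩ := hS E
  obtain ⟨D', hD'⟩ := hT (D + E)
  refine ⟨D' + D, fun m => ?_⟩
  obtain ⟨d', hd', h1⟩ := hD' m
  obtain ⟨d, hd, h2⟩ := hD (m + d')
  refine ⟨d' + d, Finset.add_mem_add hd' hd, fun e he => ⟨?_, ?_⟩⟩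
  · have := h2 e he
    rwa [← add_assoc m]
  · have := h1 (d + e) (Finset.add_mem_add hd he)
    rwa [← add_assoc m, add_assoc (m + d')]

theorem TS_univ : TS Set.univ := fun _ => ⟨{0}, fun _ => ⟨0, by simp, by simp⟩⟩

theorem TS.biInter {ι : Type*} (s : Finset ι) (S : ι → Set ℤ) (h : ∀ i ∈ s, TS (S i)) :
    TS {m | ∀ i ∈ s, m ∈ S i} := by
  classical
  induction s using Finset.induction_on with
  | empty => simpa using TS_univ
  | insert a s ha ih =>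
    have h1 := (h a (Finset.mem_insert_self a s)).inter
      (ih fun i hi => h i (Finset.mem_insert_of_mem hi))
    have h2 : S a ∩ {m | ∀ i ∈ s, m ∈ S i} = {m | ∀ i ∈ insert a s, m ∈ S i} := by
      ext m
      simp
    rwa [h2] at h1

theorem TS.exists_notMem {S : Set ℤ} (h : TS S) (B : Finset ℤ) : ∃ m ∈ S, m ∉ B := by
  classical
  obtain ⟨D, hD⟩ := h ((Finset.range (B.card + 1)).image fun k : ℕ => (k : ℤ))
  obtain ⟨d, -, hd⟩ := hD 0
  have h1 : ∀ k ∈ Finset.range (B.card + 1), 0 + d + (k : ℤ) ∈ S := fun k hk =>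
    hd _ (Finset.mem_image_of_mem _ hk)
  have h2 : B.card < ((Finset.range (B.card + 1)).image fun k : ℕ => 0 + d + (k : ℤ)).card := by
    rw [Finset.card_image_of_injective _ (fun a b hab => by simpa using hab), Finset.card_range]
    exact Nat.lt_succ_self _
  obtain ⟨m, hm, hmB⟩ := Finset.exists_mem_notMem_of_card_lt_card h2
  obtain ⟨k, hk, rfl⟩ := Finset.mem_image.1 hm
  exact ⟨_, h1 k hk, hmB⟩

variable {A : Type*} [AddCommGroup A] {X : Type*} [TopologicalSpace X] [AddAction A X]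

/-- Return times. -/
def Ret (a : A) (U V : Set X) : Set ℤ := {n | ∃ x ∈ U, (n • a) +ᵥ x ∈ V}

variable (X) in
/-- Weak mixing of the element `a`. -/
def WM (a : A) : Prop := ∀ U₁ V₁ U₂ V₂ : Set X, IsOpen U₁ → U₁.Nonempty → IsOpen V₁ →
  V₁.Nonempty → IsOpen U₂ → U₂.Nonempty → IsOpen V₂ → V₂.Nonempty →
  ∃ n : ℤ, n ∈ Ret a U₁ V₁ ∧ n ∈ Ret a U₂ V₂

variable (X) in
/-- Topological transitivity of the element `a`. -/
def Tra (a : A) : Prop := ∀ U V : Set X, IsOpen U → U.Nonempty → IsOpen V → V.Nonempty →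
  ∃ n : ℤ, n ∈ Ret a U V

variable (X) in
/-- Joint recurrence of a family of elements. -/
def JR {ι : Type} (a : ι → A) : Prop := ∀ U V : ι → Set X, (∀ i, IsOpen (U i)) →
  (∀ i, (U i).Nonempty) → (∀ i, IsOpen (V i)) → (∀ i, (V i).Nonempty) → ∀ B : Finset ℤ,
  ∃ n : ℤ, n ∉ B ∧ ∀ i, n ∈ Ret (a i) (U i) (V i)

variable [ContinuousConstVAdd A X]

theorem isOpen_pre (b : A) {U : Set X} (hU : IsOpen U) : IsOpen {x | b +ᵥ x ∈ U} :=
  hU.preimage (continuous_const_vadd b)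

theorem WM.inter {a : A} (ha : WM X a) {U₁ V₁ U₂ V₂ : Set X} (hU₁ : IsOpen U₁)
    (hU₁' : U₁.Nonempty) (hV₁ : IsOpen V₁) (hV₁' : V₁.Nonempty) (hU₂ : IsOpen U₂)
    (hU₂' : U₂.Nonempty) (hV₂ : IsOpen V₂) (hV₂' : V₂.Nonempty) :
    ∃ U V : Set X, IsOpen U ∧ U.Nonempty ∧ IsOpen V ∧ V.Nonempty ∧
      Ret a U V ⊆ Ret a U₁ V₁ ∩ Ret a U₂ V₂ := by
  obtain ⟨n, ⟨x, hx, hx'⟩, ⟨y, hy, hy'⟩⟩ := ha U₁ U₂ V₁ V₂ hU₁ hU₁' hU₂ hU₂' hV₁ hV₁' hV₂ hV₂'
  refine ⟨U₁ ∩ {x | n • a +ᵥ x ∈ U₂}, V₁ ∩ {x | n • a +ᵥ x ∈ V₂}, hU₁.inter (isOpen_pre _ hU₂),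
    ⟨x, hx, hx'⟩, hV₁.inter (isOpen_pre _ hV₂), ⟨y, hy, hy'⟩, ?_⟩
  rintro m ⟨z, ⟨hz1, hz2⟩, hz3, hz4⟩
  refine ⟨⟨z, hz1, hz3⟩, ⟨n • a +ᵥ z, hz2, ?_⟩⟩
  rw [vadd_vadd, add_comm, ← vadd_vadd]
  exact hz4

theorem WM.translate {a : A} (ha : WM X a) {U V : Set X} (hU : IsOpen U)
    (hU' : U.Nonempty) (hV : IsOpen V) (hV' : V.Nonempty) (E : Finset ℤ) :
    ∃ U' V' : Set X, IsOpen U' ∧ U'.Nonempty ∧ IsOpen V' ∧ V'.Nonempty ∧
      Ret a U' V' ⊆ {m | ∀ e ∈ E, m + e ∈ Ret a U V} := by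
  classical
  induction E using Finset.induction_on with
  | empty => exact ⟨U, V, hU, hU', hV, hV', by simp⟩
  | insert e E he ih =>
    obtain ⟨U', V', h1, h2, h3, h4, h5⟩ := ih
    have h6 : ({x | (e • a) +ᵥ x ∈ V} : Set X).Nonempty := by
      obtain ⟨v, hv⟩ := hV'
      exact ⟨-(e • a) +ᵥ v, by simpa using hv⟩
    obtain ⟨U'', V'', h1', h2', h3', h4', h5'⟩ :=
      ha.inter h1 h2 h3 h4 hU hU' (isOpen_pre (e • a) hV) h6
    refine ⟨U'', V'', h1', h2', h3', h4', fun m hm e' he' => ?_⟩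
    rcases Finset.mem_insert.1 he' with rfl | he'
    · obtain ⟨x, hx, hx'⟩ := (h5' hm).2
      refine ⟨x, hx, ?_⟩
      rw [add_comm, add_smul, ← vadd_vadd]
      exact hx'
    · exact h5 (h5' hm).1 e' he'

theorem WM.trans {a : A} (ha : WM X a) : Tra X a := by
  intro U V hU hU' hV hV'
  obtain ⟨n, hn, -⟩ := ha U V U V hU hU' hV hV' hU hU' hV hV'
  exact ⟨n, hn⟩

theorem exists_common {a : A} (ha : Tra X a) {V : Set X} (hV : IsOpen V)
    (hV' : V.Nonempty) (F : Finset A) :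
    ∃ (W : Set X) (n : A → ℤ), IsOpen W ∧ W.Nonempty ∧
      ∀ h ∈ F, ∀ w ∈ W, (n h • a) +ᵥ w ∈ h +ᵥ V := by
  classical
  induction F using Finset.induction_on with
  | empty => exact ⟨V, fun _ => 0, hV, hV', by simp⟩
  | insert h F hh ih =>
    obtain ⟨W, n, h1, h2, h3⟩ := ih
    obtain ⟨k, x, hx, hx'⟩ := ha _ _ h1 h2 (hV.vadd h) (hV'.vadd_set)
    refine ⟨W ∩ {x | (k • a) +ᵥ x ∈ h +ᵥ V}, Function.update n h k,
      h1.inter (isOpen_pre _ (hV.vadd h)), ⟨x, hx, hx'⟩, fun h' hh' w hw => ?_⟩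
    rcases Finset.mem_insert.1 hh' with rfl | hh''
    · rw [Function.update_self]
      exact hw.2
    · have hne : h' ≠ h := fun heq => hh (by rw [← heq]; exact hh'')
      rw [Function.update_of_ne hne]
      exact h3 h' hh'' w hw.1

theorem Synd_Ret [CompactSpace X] [AddAction.IsMinimal A X] {a : A} (ha : Tra X a) {U V : Set X}
    (hU : IsOpen U) (hU' : U.Nonempty) (hV : IsOpen V) (hV' : V.Nonempty) :
    Synd (Ret a U V) := by
  classical
  obtain ⟨F, hF⟩ := isCompact_univ.exists_finite_cover_vadd A hU hU'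
  obtain ⟨W, n, hW, hW', h3⟩ := exists_common ha hV hV' F
  obtain ⟨w, hw⟩ := hW'
  refine ⟨F.image n, fun m => ?_⟩
  have h4 := hF (Set.mem_univ (-(m • a) +ᵥ w))
  simp only [Set.mem_iUnion] at h4
  obtain ⟨h, hh, u, hu, h5⟩ := h4
  refine ⟨n h, Finset.mem_image_of_mem _ hh, u, hu, ?_⟩
  have h5 : h +ᵥ u = -(m • a) +ᵥ w := h5
  have h6 : ((m + n h) • a) +ᵥ (h +ᵥ u) = (n h • a) +ᵥ w := by
    rw [h5, vadd_vadd]
    congr 1
    rw [add_smul]; abel
  rw [← Set.vadd_mem_vadd_set_iff (a := h), vadd_vadd, add_comm h, ← vadd_vadd, h6]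
  exact h3 h hh w hw

theorem TS_Ret [CompactSpace X] [AddAction.IsMinimal A X] {a : A} (ha : WM X a) {U V : Set X}
    (hU : IsOpen U) (hU' : U.Nonempty) (hV : IsOpen V) (hV' : V.Nonempty) :
    TS (Ret a U V) := by
  intro E
  obtain ⟨U', V', h1, h2, h3, h4, h5⟩ := ha.translate hU hU' hV hV' E
  exact (Synd_Ret ha.trans h1 h2 h3 h4).mono h5

theorem JR_of_WM [CompactSpace X] [AddAction.IsMinimal A X] {ι : Type} [Fintype ι] {a : ι → A}
    (ha : ∀ i, WM X (a i)) : JR X a := by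
  intro U V hU hU' hV hV' B
  have hTS : TS {m | ∀ i ∈ (Finset.univ : Finset ι), m ∈ Ret (a i) (U i) (V i)} :=
    TS.biInter _ _ fun i _ => TS_Ret (ha i) (hU i) (hU' i) (hV i) (hV' i)
  obtain ⟨n, hn, hnB⟩ := hTS.exists_notMem B
  exact ⟨n, hnB, fun i => hn i (Finset.mem_univ i)⟩

theorem Synd.exists_notMem {S : Set ℤ} (h : Synd S) (B : Finset ℤ) : ∃ m ∈ S, m ∉ B := by
  classical
  obtain ⟨D, hD⟩ := h
  -- go beyond all elements of `B`
  obtain ⟨M, hM⟩ : ∃ M : ℤ, ∀ b ∈ B, b < M := by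
    obtain ⟨M, hM⟩ := B.bddAbove
    exact ⟨M + 1, fun b hb => Int.lt_add_one_of_le (hM hb)⟩
  obtain ⟨M', hM'⟩ : ∃ M' : ℤ, ∀ d ∈ D, M' ≤ d := by
    obtain ⟨M', hM'⟩ := D.bddBelow
    exact ⟨M', fun d hd => hM' hd⟩
  obtain ⟨d, hd, h1⟩ := hD (M - M')
  refine ⟨_, h1, fun hmem => ?_⟩
  have h2 := hM _ hmem
  have h3 := hM' d hd
  omega

theorem JR_of_Tra [CompactSpace X] [AddAction.IsMinimal A X] {ι : Type} [Subsingleton ι]
    {a : ι → A} (ha : ∀ i, Tra X (a i)) : JR X a := by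
  intro U V hU hU' hV hV' B
  by_cases hι : IsEmpty ι
  · obtain ⟨n, -, hn⟩ := TS_univ.exists_notMem B
    exact ⟨n, hn, fun i => hι.elim i⟩
  · rw [not_isEmpty_iff] at hι
    obtain ⟨i⟩ := hι
    obtain ⟨n, hn, hnB⟩ := (Synd_Ret (ha i) (hU i) (hU' i) (hV i) (hV' i)).exists_notMem B
    exact ⟨n, hnB, fun j => by rw [Subsingleton.elim j i]; exact hn⟩

/-- Choice of the shifts. -/
theorem select {ι : Type} (a : ι → A)
    (ha : JR X a) (V : ι → Set X) (hV : ∀ i, IsOpen (V i)) (hV' : ∀ i, (V i).Nonempty)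
    (h : ℕ → A) (B : Finset ℤ) (N : ℕ) :
    ∃ s : ℕ → ℤ, (∀ k < N, s k ∉ B) ∧ (∀ k < N, ∀ l < N, k ≠ l → s k - s l ∉ B) ∧
      ∃ O : ι → Set X, ∀ i, IsOpen (O i) ∧ (O i).Nonempty ∧
        ∀ x ∈ O i, ∀ k < N, (s k • a i) +ᵥ x ∈ h k +ᵥ V i := by
  classical
  induction N with
  | zero => exact ⟨fun _ => 0, by simp, by simp, V, fun i => ⟨hV i, hV' i, by simp⟩⟩
  | succ N ih =>
    obtain ⟨s, hs1, hs2, O, hO⟩ := ih
    obtain ⟨n, hnB, hn⟩ := ha O (fun i => h N +ᵥ V i) (fun i => (hO i).1) (fun i => (hO i).2.1)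
      (fun i => (hV i).vadd _) (fun i => (hV' i).vadd_set)
      (B ∪ (Finset.range N).biUnion fun k =>
      (B.image fun b => b + s k) ∪ (B.image fun b => s k - b))
    simp only [Finset.mem_union, Finset.mem_biUnion, Finset.mem_range, Finset.mem_image,
      not_or, not_exists, not_and] at hnB
    refine ⟨Function.update s N n, ?_, ?_, fun i => O i ∩ {x | (n • a i) +ᵥ x ∈ h N +ᵥ V i},
      fun i => ⟨(hO i).1.inter (isOpen_pre _ ((hV i).vadd _)), ?_, ?_⟩⟩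
    · intro k hk
      rcases Nat.lt_succ_iff_lt_or_eq.1 hk with hk | rfl
      · rw [Function.update_of_ne hk.ne]
        exact hs1 k hk
      · rw [Function.update_self]
        exact hnB.1
    · intro k hk l hl hkl
      rcases Nat.lt_succ_iff_lt_or_eq.1 hk with hk | rfl
      · rw [Function.update_of_ne hk.ne]
        rcases Nat.lt_succ_iff_lt_or_eq.1 hl with hl | rfl
        · rw [Function.update_of_ne hl.ne]
          exact hs2 k hk l hl hkl
        · rw [Function.update_self]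
          intro hmem
          exact (hnB.2 k hk).2 _ hmem (by ring)
      · rw [Function.update_self]
        rcases Nat.lt_succ_iff_lt_or_eq.1 hl with hl | rfl
        · rw [Function.update_of_ne hl.ne]
          intro hmem
          exact (hnB.2 l hl).1 _ hmem (by ring)
        · exact absurd rfl hkl
    · obtain ⟨x, hx, hx'⟩ := hn i
      exact ⟨x, hx, hx'⟩
    · intro x hx k hk
      rcases Nat.lt_succ_iff_lt_or_eq.1 hk with hk | rfl
      · rw [Function.update_of_ne hk.ne]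
        exact (hO i).2.2 x hx.1 k hk
      · rw [Function.update_self]
        exact hx.2

end Pool.Agent.W_MP_cae956
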