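import Pool.Agent.W_MP_cae956.Joint
import Pool.Agent.W_MP_cae956.Def

set_option autoImplicit false
set_option linter.style.haveILetI false

/-! # Joint transitivity of polynomial orbits for commuting homeomorphisms -/

open scoped Pointwise

namespace Pool.Agent.W_MP_cae956

theorem hpow_sub {X : Type*} [TopologicalSpace X] (g : X ≃ₜ X) (n k : ℤ) (x : X) :
    (g ^ (n - k)) ((g ^ k) x) = (g ^ n) x := by
  have h : g ^ (n - k) * g ^ k = g ^ n := by rw [← zpow_add, sub_add_cancel]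
  rw [← h]
  rfl

/-- Weak mixing gives the usual condition with open sets. -/
theorem WeaklyMixing.open_sets {X : Type*} [TopologicalSpace X] {g : X ≃ₜ X}
    (hg : WeaklyMixing g) {U₁ V₁ U₂ V₂ : Set X} (hU₁ : IsOpen U₁) (hU₁' : U₁.Nonempty)
    (hV₁ : IsOpen V₁) (hV₁' : V₁.Nonempty) (hU₂ : IsOpen U₂) (hU₂' : U₂.Nonempty)
    (hV₂ : IsOpen V₂) (hV₂' : V₂.Nonempty) :
    ∃ n : ℤ, (∃ x ∈ U₁, (g ^ n) x ∈ V₁) ∧ ∃ x ∈ U₂, (g ^ n) x ∈ V₂ := by
  obtain ⟨z, hz⟩ := hg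
  obtain ⟨_, ⟨hk1, hk2⟩, k, rfl⟩ := hz.inter_open_nonempty _ (hU₁.prod hU₂) (hU₁'.prod hU₂')
  obtain ⟨_, ⟨hn1, hn2⟩, n, rfl⟩ := hz.inter_open_nonempty _ (hV₁.prod hV₂) (hV₁'.prod hV₂')
  refine ⟨n - k, ⟨_, hk1, ?_⟩, ⟨_, hk2, ?_⟩⟩
  · show (g ^ (n - k)) ((g ^ k) z.1) ∈ V₁
    rw [hpow_sub]
    exact hn1
  · show (g ^ (n - k)) ((g ^ k) z.2) ∈ V₂
    rw [hpow_sub]
    exact hn2

/-- The group generated by the `T j`, written additively. -/
def AG {X : Type*} [TopologicalSpace X] {ℓ : ℕ} (T : Fin ℓ → (X ≃ₜ X)) : Type _ :=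
  Additive (Subgroup.closure (Set.range T))

section action

variable {X : Type*} [TopologicalSpace X] {ℓ : ℕ} (T : Fin ℓ → (X ≃ₜ X))

/-- The additive group structure. -/
@[instance_reducible] noncomputable def agAddGroup : AddGroup (AG T) :=
  inferInstanceAs (AddGroup (Additive (Subgroup.closure (Set.range T))))

/-- The commutative group structure. -/
@[instance_reducible] noncomputable def agGroup (hc : ∀ i j, T i * T j = T j * T i) : AddCommGroup (AG T) :=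
  { agAddGroup T with
    add_comm := by
      have h : IsMulCommutative (Subgroup.closure (Set.range T)) :=
        Subgroup.isMulCommutative_closure (by
          rintro _ ⟨i, rfl⟩ _ ⟨j, rfl⟩
          exact hc i j)
      intro a b
      exact h.is_comm.comm (Additive.toMul a) (Additive.toMul b) }

/-- The homeomorphism attached to an element of the group. -/
def toHo (a : AG T) : X ≃ₜ X := (Additive.toMul (α := Subgroup.closure (Set.range T)) a).1

end action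

/-- Joint transitivity with open sets. -/
theorem joint_open {X : Type*} [TopologicalSpace X] [T2Space X] [CompactSpace X] {ℓ : ℕ}
    (T : Fin ℓ → (X ≃ₜ X)) (p : Fin ℓ → Polynomial ℤ)
    (hc : ∀ i j, T i * T j = T j * T i)
    (hmin : ∀ x : X, Dense {y : X | ∃ g ∈ Subgroup.closure (Set.range T), g x = y})
    (htt : ∀ j : Fin ℓ, ∀ r : ℕ, 0 < r →
      ∃ x : X, Dense (Set.range (fun n : ℤ => (T j ^ ((r : ℤ) * n)) x)))
    (hdeg : ∀ j, 0 < (p j).natDegree)
    (hind : ∀ i j, i ≠ j → ∀ a b : ℤ, (a ≠ 0 ∨ b ≠ 0) → 0 < (a • p i + b • p j).natDegree)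
    (hWM : ∀ d : ℕ, (d ≠ 1 ∨ ∃ i j, i ≠ j ∧ (p i).natDegree = 1 ∧ (p j).natDegree = 1) →
      ∀ g ∈ Subgroup.closure {g | ∃ j, T j = g ∧ (p j).natDegree = d}, g ≠ 1 →
        WeaklyMixing g)
    (U : Set X) (V : Fin ℓ → Set X) (hU : IsOpen U) (hU' : U.Nonempty) (hV : ∀ j, IsOpen (V j))
    (hV' : ∀ j, (V j).Nonempty) :
    ∃ (n : ℤ) (x : X), x ∈ U ∧ ∀ j, (T j ^ ((p j).eval n)) x ∈ V j := by
  letI : AddCommGroup (AG T) := agGroup T hc
  letI : AddAction (AG T) X :=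
    { vadd := fun a x => toHo T a x
      zero_vadd := fun x => rfl
      add_vadd := fun a b x => rfl }
  have hact : ∀ (a : AG T) (x : X), a +ᵥ x = toHo T a x := fun _ _ => rfl
  haveI : ContinuousConstVAdd (AG T) X := ⟨fun a => (toHo T a).continuous⟩
  haveI : AddAction.IsMinimal (AG T) X := by
    refine ⟨fun x => ?_⟩
    refine (hmin x).mono ?_
    rintro y ⟨g, hg, rfl⟩
    exact ⟨Additive.ofMul (⟨g, hg⟩ : Subgroup.closure (Set.range T)), rfl⟩
  set e : Fin ℓ → AG T := fun j => Additive.ofMul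
    (⟨T j, Subgroup.subset_closure ⟨j, rfl⟩⟩ : Subgroup.closure (Set.range T)) with he
  have hz : ∀ (n : ℤ) (a : AG T), toHo T (n • a) = toHo T a ^ n := fun n a => by
    show ((Additive.toMul (α := Subgroup.closure (Set.range T)) a ^ n :
      Subgroup.closure (Set.range T)) : X ≃ₜ X) = _
    rw [Subgroup.coe_zpow]
    rfl
  have heT : ∀ j, toHo T (e j) = T j := fun j => rfl
  have hWM' : ∀ a : AG T, WeaklyMixing (toHo T a) → WM X a := by
    intro a ha U₁ V₁ U₂ V₂ hU₁ hU₁' hV₁ hV₁' hU₂ hU₂' hV₂ hV₂'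
    obtain ⟨n, ⟨x, hx, hx'⟩, ⟨y, hy, hy'⟩⟩ := ha.open_sets hU₁ hU₁' hV₁ hV₁' hU₂ hU₂' hV₂ hV₂'
    refine ⟨n, ⟨x, hx, ?_⟩, ⟨y, hy, ?_⟩⟩
    · rw [hact, hz]; exact hx'
    · rw [hact, hz]; exact hy'
  have hTra : ∀ j, ∀ r : ℕ, 0 < r → Tra X ((r : ℤ) • e j) := by
    intro j r hr U V hU hU' hV hV'
    obtain ⟨z, hzd⟩ := htt j r hr
    obtain ⟨_, hk, k, rfl⟩ := hzd.inter_open_nonempty _ hU hU'
    obtain ⟨_, hn, n, rfl⟩ := hzd.inter_open_nonempty _ hV hV'
    refine ⟨n - k, _, hk, ?_⟩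
    rw [hact, hz, hz, heT]
    have h1 : ((T j ^ (r : ℤ)) ^ (n - k)) ((T j ^ ((r : ℤ) * k)) z) = (T j ^ ((r : ℤ) * n)) z := by
      rw [zpow_mul, zpow_mul]
      exact hpow_sub (T j ^ (r : ℤ)) n k z
    rw [h1]
    exact hn
  have hcl : ∀ d : ℕ, ∀ a ∈ AddSubgroup.closure {a | ∃ j, e j = a ∧ (p j).natDegree = d},
      toHo T a ∈ Subgroup.closure {g | ∃ j, T j = g ∧ (p j).natDegree = d} := by
    intro d a ha
    induction ha using AddSubgroup.closure_induction with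
    | mem a ha =>
      obtain ⟨j, rfl, hj⟩ := ha
      exact Subgroup.subset_closure ⟨j, rfl, hj⟩
    | zero => exact one_mem _
    | add a b _ _ iha ihb => exact mul_mem iha ihb
    | neg a _ iha => exact inv_mem iha
  obtain ⟨n, x, hx, hx'⟩ := joint_abs (X := X) ℓ e p hTra hdeg hind (fun d hd a ha ha0 =>
    hWM' a (hWM d hd _ (hcl d a ha) (fun h1 => ha0 (by
      have h2 : Additive.toMul (α := Subgroup.closure (Set.range T)) a = 1 := Subtype.ext h1
      exact h2)))) U V hU hU' hV hV'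
  refine ⟨n, x, hx, fun j => ?_⟩
  have h := hx' j
  rw [hact, hz, heT] at h
  exact h

/-- The Baire category argument. -/
theorem residual_of_open {X : Type*} [MetricSpace X] [CompactSpace X] {ℓ : ℕ}
    (F : ℤ → Fin ℓ → X → X) (hF : ∀ n j, Continuous (F n j))
    (h : ∀ (U : Set X) (V : Fin ℓ → Set X), IsOpen U → U.Nonempty → (∀ j, IsOpen (V j)) →
      (∀ j, (V j).Nonempty) → ∃ (n : ℤ) (x : X), x ∈ U ∧ ∀ j, F n j x ∈ V j) :
    ∃ S : Set X, IsGδ S ∧ Dense S ∧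
      ∀ x ∈ S, Dense (Set.range (fun n : ℤ => fun j : Fin ℓ => F n j x)) := by
  classical
  set B := {b : Set X // b ∈ TopologicalSpace.countableBasis X}
  have hBc : Countable B := (TopologicalSpace.countable_countableBasis X).to_subtype
  have hBo : ∀ b : B, IsOpen b.1 := fun b => TopologicalSpace.isOpen_of_mem_countableBasis b.2
  have hBn : ∀ b : B, b.1.Nonempty := fun b => TopologicalSpace.nonempty_of_mem_countableBasis b.2
  set W : (Fin ℓ → B) → Set X := fun v => {x | ∃ n : ℤ, ∀ j, F n j x ∈ (v j).1} with hW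
  have hWo : ∀ v, IsOpen (W v) := by
    intro v
    have : W v = ⋃ n : ℤ, ⋂ j, F n j ⁻¹' (v j).1 := by
      ext x
      simp [hW]
    rw [this]
    exact isOpen_iUnion fun n => isOpen_iInter_of_finite fun j => (hBo _).preimage (hF n j)
  have hWd : ∀ v, Dense (W v) := by
    intro v
    rw [dense_iff_inter_open]
    intro U hU hU'
    obtain ⟨n, x, hx, hx'⟩ := h U (fun j => (v j).1) hU hU' (fun j => hBo _) (fun j => hBn _)
    exact ⟨x, hx, n, hx'⟩
  refine ⟨⋂ v, W v, IsGδ.iInter_of_isOpen hWo, dense_iInter_of_isOpen hWo hWd, ?_⟩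
  intro x hx
  rw [dense_iff_inter_open]
  rintro O hO ⟨y, hy⟩
  obtain ⟨u, hu, huO⟩ := isOpen_pi_iff'.1 hO y hy
  have hv : ∀ j, ∃ b : B, y j ∈ b.1 ∧ b.1 ⊆ u j := by
    intro j
    obtain ⟨b, hb, hyb, hbu⟩ :=
      (TopologicalSpace.isBasis_countableBasis X).exists_subset_of_mem_open (hu j).2 (hu j).1
    exact ⟨⟨b, hb⟩, hyb, hbu⟩
  choose v hv using hv
  obtain ⟨n, hn⟩ := Set.mem_iInter.1 hx v
  exact ⟨_, huO fun j _ => (hv j).2 (hn j), n, rfl⟩

/-- The open set form of weak mixing gives a point with dense orbit. -/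
theorem WeaklyMixing.of_open {X : Type*} [MetricSpace X] [CompactSpace X] [Nonempty X]
    {g : X ≃ₜ X} (h : ∀ U₁ V₁ U₂ V₂ : Set X, IsOpen U₁ → U₁.Nonempty → IsOpen V₁ →
      V₁.Nonempty → IsOpen U₂ → U₂.Nonempty → IsOpen V₂ → V₂.Nonempty →
      ∃ n : ℤ, (∃ x ∈ U₁, (g ^ n) x ∈ V₁) ∧ ∃ x ∈ U₂, (g ^ n) x ∈ V₂) : WeaklyMixing g := by
  obtain ⟨S, -, hS, hS'⟩ := residual_of_open (X := X × X) (ℓ := 1)
    (fun n _ z => ((g ^ n) z.1, (g ^ n) z.2)) (fun n _ => by fun_prop) (by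
      intro U V hU hU' hV hV'
      obtain ⟨⟨u1, u2⟩, hu⟩ := hU'
      obtain ⟨⟨v1, v2⟩, hv⟩ := hV' 0
      obtain ⟨U₁, U₂, hU₁, hU₂, hu1, hu2, hUU⟩ := isOpen_prod_iff.1 hU u1 u2 hu
      obtain ⟨V₁, V₂, hV₁, hV₂, hv1, hv2, hVV⟩ := isOpen_prod_iff.1 (hV 0) v1 v2 hv
      obtain ⟨n, ⟨x, hx, hx'⟩, ⟨y, hy, hy'⟩⟩ := h U₁ V₁ U₂ V₂ hU₁ ⟨u1, hu1⟩ hV₁ ⟨v1, hv1⟩
        hU₂ ⟨u2, hu2⟩ hV₂ ⟨v2, hv2⟩
      refine ⟨n, (x, y), hUU ⟨hx, hy⟩, fun j => ?_⟩
      rw [Subsingleton.elim j 0]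
      exact hVV ⟨hx', hy'⟩)
  obtain ⟨z, hz⟩ := hS.nonempty
  refine ⟨z, ?_⟩
  have h1 : DenseRange (fun n : ℤ => fun _ : Fin 1 => ((g ^ n) z.1, (g ^ n) z.2)) := hS' z hz
  exact (Function.surjective_eval (0 : Fin 1)).denseRange.comp h1 (continuous_apply 0)

/-- Powers of weakly mixing homeomorphisms are weakly mixing. -/
theorem WeaklyMixing.zpow {X : Type*} [MetricSpace X] [CompactSpace X] {g : X ≃ₜ X}
    (hg : WeaklyMixing g) {k : ℤ} (hk : k ≠ 0) : WeaklyMixing (g ^ k) := by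
  classical
  haveI : Nonempty X := ⟨hg.choose.1⟩
  letI : AddAction ℤ X :=
    { vadd := fun a x => (g ^ a) x
      zero_vadd := fun x => by
        show (g ^ (0 : ℤ)) x = x
        rw [zpow_zero]; rfl
      add_vadd := fun a b x => by
        show (g ^ (a + b)) x = (g ^ a) ((g ^ b) x)
        rw [zpow_add]; rfl }
  have hact : ∀ (a : ℤ) (x : X), a +ᵥ x = (g ^ a) x := fun _ _ => rfl
  haveI : ContinuousConstVAdd ℤ X := ⟨fun a => (g ^ a).continuous⟩
  have hone : ∀ n : ℤ, n • (1 : ℤ) = n := fun n => by rw [smul_eq_mul, mul_one]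
  have hWM : WM X (1 : ℤ) := by
    intro U₁ V₁ U₂ V₂ hU₁ hU₁' hV₁ hV₁' hU₂ hU₂' hV₂ hV₂'
    obtain ⟨n, ⟨x, hx, hx'⟩, ⟨y, hy, hy'⟩⟩ := hg.open_sets hU₁ hU₁' hV₁ hV₁' hU₂ hU₂' hV₂ hV₂'
    refine ⟨n, ⟨x, hx, ?_⟩, ⟨y, hy, ?_⟩⟩
    · rw [hone, hact]; exact hx'
    · rw [hone, hact]; exact hy'
  refine WeaklyMixing.of_open ?_
  intro U₁ V₁ U₂ V₂ hU₁ hU₁' hV₁ hV₁' hU₂ hU₂' hV₂ hV₂'
  obtain ⟨U, V, hU, hU', hV, hV', hUV⟩ := hWM.inter hU₁ hU₁' hV₁ hV₁' hU₂ hU₂' hV₂ hV₂'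
  obtain ⟨U', V', h1, h2, h3, h4, h5⟩ := hWM.translate hU hU' hV hV'
    ((Finset.range k.natAbs).image fun i : ℕ => (i : ℤ))
  obtain ⟨m, hm⟩ := hWM.trans _ _ h1 h2 h3 h4
  have h6 := h5 hm
  have hspos : (0 : ℤ) < (k.natAbs : ℤ) := by
    have := Int.natAbs_pos.2 hk
    exact_mod_cast this
  have h7 := Int.emod_nonneg (-m) hspos.ne'
  have h8 := Int.emod_lt_of_pos (-m) hspos
  obtain ⟨i, hi⟩ := Int.eq_ofNat_of_zero_le h7
  have hi' : i < k.natAbs := by
    have : (i : ℤ) < (k.natAbs : ℤ) := by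
      rw [← hi]
      exact h8
    exact_mod_cast this
  have h9 : (k.natAbs : ℤ) ∣ m + i := by
    have h11 : (k.natAbs : ℤ) ∣ -m - (-m) % (k.natAbs : ℤ) := Int.dvd_self_sub_emod
    have h12 : m + i = -(-m - (-m) % (k.natAbs : ℤ)) := by
      rw [hi]
      ring
    rw [h12]
    exact (dvd_neg).2 h11
  rw [Int.natAbs_dvd] at h9
  obtain ⟨c, hc⟩ := h9
  obtain ⟨⟨x, hx, hx'⟩, ⟨y, hy, hy'⟩⟩ :=
    hUV (h6 (i : ℤ) (Finset.mem_image_of_mem _ (Finset.mem_range.2 hi')))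
  rw [hone, hact, hc, zpow_mul] at hx' hy'
  exact ⟨c, ⟨x, hx, hx'⟩, ⟨y, hy, hy'⟩⟩

/-- The general theorem. -/
theorem joint_general (X : Type) [MetricSpace X] [CompactSpace X] (ℓ : ℕ)
    (T : Fin ℓ → (X ≃ₜ X)) (p : Fin ℓ → Polynomial ℤ)
    (hc : ∀ i j, T i * T j = T j * T i)
    (hmin : ∀ x : X, Dense {y : X | ∃ g ∈ Subgroup.closure (Set.range T), g x = y})
    (htt : ∀ j : Fin ℓ, ∀ r : ℕ, 0 < r →
      ∃ x : X, Dense (Set.range (fun n : ℤ => (T j ^ ((r : ℤ) * n)) x)))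
    (hdeg : ∀ j, 0 < (p j).natDegree)
    (hind : ∀ i j, i ≠ j → ∀ a b : ℤ, (a ≠ 0 ∨ b ≠ 0) → 0 < (a • p i + b • p j).natDegree)
    (hWM : ∀ d : ℕ, (d ≠ 1 ∨ ∃ i j, i ≠ j ∧ (p i).natDegree = 1 ∧ (p j).natDegree = 1) →
      ∀ g ∈ Subgroup.closure {g | ∃ j, T j = g ∧ (p j).natDegree = d}, g ≠ 1 →
        WeaklyMixing g) :
    ∃ S : Set X, IsGδ S ∧ Dense S ∧
      ∀ x ∈ S, Dense (Set.range (fun n : ℤ => fun j : Fin ℓ => (T j ^ ((p j).eval n)) x)) :=
  residual_of_open (fun n j => T j ^ ((p j).eval n)) (fun _ _ => Homeomorph.continuous _)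
    (joint_open T p hc hmin htt hdeg hind hWM)

/-- Distinct degrees. -/
theorem joint_distinct (X : Type) [MetricSpace X] [CompactSpace X] (ℓ : ℕ)
    (T : Fin ℓ → (X ≃ₜ X)) (p : Fin ℓ → Polynomial ℤ)
    (hc : ∀ i j, T i * T j = T j * T i)
    (hmin : ∀ x : X, Dense {y : X | ∃ g ∈ Subgroup.closure (Set.range T), g x = y})
    (htt : ∀ j : Fin ℓ, ∀ r : ℕ, 0 < r →
      ∃ x : X, Dense (Set.range (fun n : ℤ => (T j ^ ((r : ℤ) * n)) x)))
    (hdeg : ∀ j, 0 < (p j).natDegree)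
    (hinj : Function.Injective fun j => (p j).natDegree)
    (hWM : ∀ j, 2 ≤ (p j).natDegree → WeaklyMixing (T j)) :
    ∃ S : Set X, IsGδ S ∧ Dense S ∧
      ∀ x ∈ S, Dense (Set.range (fun n : ℤ => fun j : Fin ℓ => (T j ^ ((p j).eval n)) x)) := by
  refine joint_general X ℓ T p hc hmin htt hdeg ?_ ?_
  · intro i j hij a b hab
    have hne : (p i).natDegree ≠ (p j).natDegree := fun h => hij (hinj h)
    have hpi : p i ≠ 0 := by
      intro h0
      have := hdeg i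
      rw [h0] at this
      simp at this
    have hpj : p j ≠ 0 := by
      intro h0
      have := hdeg j
      rw [h0] at this
      simp at this
    by_cases ha : a = 0
    · have hb : b ≠ 0 := by
        rcases hab with h | h
        · exact absurd ha h
        · exact h
      rw [ha, zero_smul, zero_add]
      refine lt_of_lt_of_le (hdeg j) (Polynomial.le_natDegree_of_ne_zero ?_)
      rw [Polynomial.coeff_smul, smul_eq_mul]
      exact mul_ne_zero hb (Polynomial.leadingCoeff_ne_zero.2 hpj)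
    · by_cases hb : b = 0
      · rw [hb, zero_smul, add_zero]
        refine lt_of_lt_of_le (hdeg i) (Polynomial.le_natDegree_of_ne_zero ?_)
        rw [Polynomial.coeff_smul, smul_eq_mul]
        exact mul_ne_zero ha (Polynomial.leadingCoeff_ne_zero.2 hpi)
      · rcases lt_or_gt_of_ne hne with h | h
        · refine lt_of_lt_of_le (hdeg j) (Polynomial.le_natDegree_of_ne_zero ?_)
          rw [Polynomial.coeff_add, Polynomial.coeff_smul, Polynomial.coeff_smul,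
            Polynomial.coeff_eq_zero_of_natDegree_lt h, smul_zero, zero_add, smul_eq_mul]
          exact mul_ne_zero hb (Polynomial.leadingCoeff_ne_zero.2 hpj)
        · refine lt_of_lt_of_le (hdeg i) (Polynomial.le_natDegree_of_ne_zero ?_)
          rw [Polynomial.coeff_add, Polynomial.coeff_smul, Polynomial.coeff_smul,
            Polynomial.coeff_eq_zero_of_natDegree_lt h, smul_zero, add_zero, smul_eq_mul]
          exact mul_ne_zero ha (Polynomial.leadingCoeff_ne_zero.2 hpi)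
  · intro d hd g hg hg1
    by_cases hj : ∃ j, (p j).natDegree = d
    · obtain ⟨j, hj⟩ := hj
      have hset : {g | ∃ j, T j = g ∧ (p j).natDegree = d} = {T j} := by
        ext g
        constructor
        · rintro ⟨i, rfl, hi⟩
          rw [show i = j from hinj (hi.trans hj.symm)]
          rfl
        · rintro rfl
          exact ⟨j, rfl, hj⟩
      rw [hset, Subgroup.mem_closure_singleton] at hg
      obtain ⟨k, rfl⟩ := hg
      have hk : k ≠ 0 := by
        rintro rfl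
        exact hg1 (zpow_zero _)
      refine (hWM j ?_).zpow hk
      have h1 := hdeg j
      have h2 : d ≠ 1 := by
        rcases hd with hd | ⟨i, i', hii, hi, hi'⟩
        · exact hd
        · exact absurd (hinj (hi.trans hi'.symm)) hii
      omega
    · exfalso
      have hset : {g | ∃ j, T j = g ∧ (p j).natDegree = d} = ∅ := by
        ext g
        constructor
        · rintro ⟨i, -, hi⟩
          exact absurd ⟨i, hi⟩ hj
        · intro h
          exact absurd h (Set.notMem_empty _)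
      rw [hset, Subgroup.closure_empty] at hg
      exact hg1 hg

end Pool.Agent.W_MP_cae956
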