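import Pool.Agent.W_MP_cae956.Pet

set_option autoImplicit false
set_option linter.style.haveILetI false

/-! # Joint transitivity for commuting homeomorphisms: abstract form -/

open scoped Pointwise

namespace Pool.Agent.W_MP_cae956

theorem Di_smul {A : Type*} [AddCommGroup A] (k : ℕ) (g : ℤ → ℤ) (a : A) :
    Di k (fun n => g n • a) = fun n => Di k g n • a := by
  induction k with
  | zero => rfl
  | succ k ih =>
    funext n
    rw [Di_succ, ih, Di_succ, sub_smul]

theorem Di_poly_zero (p : Polynomial ℤ) {k : ℕ} (hk : p.natDegree < k) (n : ℤ) :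
    Di k (fun n => p.eval n) n = 0 :=
  congrFun (Polynomial.fwdDiff_iter_eq_zero_of_degree_lt hk) n

theorem Di_poly_ne (p : Polynomial ℤ) (hp : p ≠ 0) : Di p.natDegree (fun n => p.eval n) 0 ≠ 0 := by
  have h := congrFun (Polynomial.fwdDiff_iter_degree_eq_factorial p) 0
  have h1 : Di p.natDegree (fun n => p.eval n) 0 = (p.leadingCoeff • (p.natDegree.factorial : ℤ → ℤ)) 0 := h
  rw [h1]
  simp only [Pi.smul_apply, Pi.natCast_apply, smul_eq_mul]
  exact mul_ne_zero (Polynomial.leadingCoeff_ne_zero.2 hp)
    (Nat.cast_ne_zero.2 (Nat.factorial_ne_zero _))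

theorem const_of_step {A : Type*} [AddCommGroup A] {g : ℤ → A} (h : ∀ n, g (n + 1) - g n = 0)
    (n : ℤ) : g n = g 0 := by
  have := affine_of_step h n
  rwa [smul_zero, add_zero] at this

section

variable {A : Type*} [AddCommGroup A] {X : Type*} [TopologicalSpace X] [AddAction A X]

theorem Tra.ne_zero [T2Space X] [Nontrivial X] {a : A} (ha : Tra X a) : a ≠ 0 := by
  rintro rfl
  obtain ⟨x, y, hxy⟩ := exists_pair_ne X
  obtain ⟨P, Q, hP, hQ, hx, hy, hd⟩ := t2_separation hxy
  obtain ⟨n, z, hz, hz'⟩ := ha P Q hP ⟨x, hx⟩ hQ ⟨y, hy⟩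
  rw [smul_zero, zero_vadd] at hz'
  exact Set.disjoint_left.1 hd hz hz'

theorem WM.smul_ne_zero [ContinuousConstVAdd A X] [T2Space X] [Nontrivial X] {a : A}
    (ha : WM X a) {s : ℤ} (hs : s ≠ 0) : s • a ≠ 0 := by
  classical
  intro h0
  obtain ⟨x, y, hxy⟩ := exists_pair_ne X
  obtain ⟨P, Q, hP, hQ, hx, hy, hd⟩ := t2_separation hxy
  obtain ⟨U', V', h1, h2, h3, h4, h5⟩ := ha.translate hP ⟨x, hx⟩ hQ ⟨y, hy⟩
    ((Finset.range s.natAbs).image fun k : ℕ => (k : ℤ))
  obtain ⟨m, hm⟩ := ha.trans _ _ h1 h2 h3 h4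
  have h6 := h5 hm
  -- a multiple of `s` of the form `m + k`
  have hspos : (0 : ℤ) < (s.natAbs : ℤ) := by
    have := Int.natAbs_pos.2 hs
    exact_mod_cast this
  have h7 := Int.emod_nonneg (-m) hspos.ne'
  have h8 := Int.emod_lt_of_pos (-m) hspos
  obtain ⟨k, hk⟩ := Int.eq_ofNat_of_zero_le h7
  have hk' : k < s.natAbs := by
    have : (k : ℤ) < (s.natAbs : ℤ) := by
      rw [← hk]
      exact h8
    exact_mod_cast this
  obtain ⟨z, hz, hz'⟩ := h6 (k : ℤ) (Finset.mem_image_of_mem _ (Finset.mem_range.2 hk'))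
  have h9 : (s.natAbs : ℤ) ∣ m + k := by
    have h10 := Int.emod_emod_of_dvd (-m) (dvd_refl (s.natAbs : ℤ))
    have h11 : (s.natAbs : ℤ) ∣ -m - (-m) % (s.natAbs : ℤ) := Int.dvd_self_sub_emod
    have h12 : m + k = -(-m - (-m) % (s.natAbs : ℤ)) := by
      rw [hk]
      ring
    rw [h12]
    exact (dvd_neg).2 h11
  rw [Int.natAbs_dvd] at h9
  obtain ⟨c, hc⟩ := h9
  rw [hc, mul_comm, mul_smul, h0, smul_zero, zero_vadd] at hz'
  exact Set.disjoint_left.1 hd hz hz'

end

/-- Joint transitivity, abstract form. -/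
theorem joint_abs {A : Type*} [AddCommGroup A] {X : Type*} [TopologicalSpace X] [T2Space X]
    [CompactSpace X] [AddAction A X] [ContinuousConstVAdd A X] [AddAction.IsMinimal A X]
    (ℓ : ℕ) (e : Fin ℓ → A) (p : Fin ℓ → Polynomial ℤ)
    (htt : ∀ j, ∀ r : ℕ, 0 < r → Tra X ((r : ℤ) • e j))
    (hdeg : ∀ j, 0 < (p j).natDegree)
    (hind : ∀ i j, i ≠ j → ∀ a b : ℤ, (a ≠ 0 ∨ b ≠ 0) → 0 < (a • p i + b • p j).natDegree)
    (hWM : ∀ d : ℕ, (d ≠ 1 ∨ ∃ i j, i ≠ j ∧ (p i).natDegree = 1 ∧ (p j).natDegree = 1) →
      ∀ a ∈ AddSubgroup.closure {a | ∃ j, e j = a ∧ (p j).natDegree = d}, a ≠ 0 → WM X a)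
    (U : Set X) (V : Fin ℓ → Set X) (hU : IsOpen U) (hU' : U.Nonempty) (hV : ∀ j, IsOpen (V j))
    (hV' : ∀ j, (V j).Nonempty) :
    ∃ (n : ℤ) (x : X), x ∈ U ∧ ∀ j, (p j).eval n • e j +ᵥ x ∈ V j := by
  classical
  rcases subsingleton_or_nontrivial X with hX | hX
  · obtain ⟨x, hx⟩ := hU'
    refine ⟨0, x, hx, fun j => ?_⟩
    obtain ⟨y, hy⟩ := hV' j
    rw [Subsingleton.elim (_ +ᵥ x) y]
    exact hy
  have he : ∀ j, ∀ r : ℤ, r ≠ 0 → r • e j ≠ 0 := by
    intro j r hr h0
    have h1 := (htt j r.natAbs (Int.natAbs_pos.2 hr)).ne_zero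
    apply h1
    rcases Int.natAbs_eq r with h | h
    · rw [← h]; exact h0
    · rw [h, neg_smul, neg_eq_zero] at h0
      exact h0
  have hp0 : ∀ j, p j ≠ 0 := by
    intro j h0
    have := hdeg j
    rw [h0] at this
    simp at this
  set H : ℕ → AddSubgroup A := fun d =>
    AddSubgroup.closure {a | ∃ j, e j = a ∧ (p j).natDegree = d} with hHdef
  have heH : ∀ j, e j ∈ H (p j).natDegree := fun j =>
    AddSubgroup.subset_closure ⟨j, rfl, rfl⟩
  have hTF : TF H := fun t ht a ha ha0 s hs =>
    (hWM t (Or.inl (by omega)) a ha ha0).smul_ne_zero hs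
  set f : Fin ℓ → ℤ → A := fun j n => (p j).eval n • e j with hf
  have hDi : ∀ j k n, Di k (f j) n = Di k (fun n => (p j).eval n) n • e j := by
    intro j k n
    have := congrFun (Di_smul k (fun n => (p j).eval n) (e j)) n
    exact this
  have hlc : ∀ j, lc (p j).natDegree (f j) ≠ 0 := by
    intro j
    show Di _ (f j) 0 ≠ 0
    rw [hDi]
    exact he j _ (Di_poly_ne _ (hp0 j))
  have hmemH : ∀ j k n, Di k (f j) n ∈ H (p j).natDegree := by
    intro j k n
    rw [hDi]
    exact AddSubgroup.zsmul_mem _ (heH j) _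
  have hzero : ∀ j k n, (p j).natDegree < k → Di k (f j) n = 0 := by
    intro j k n hk
    rw [hDi, Di_poly_zero _ hk, zero_smul]
  have hGood : Good H f (fun j => (p j).natDegree) (fun j => (p j).natDegree) := by
    refine ⟨fun j => ⟨hdeg j, fun k hk n => ?_, hlc j⟩, fun j => le_rfl, fun i j _ => ?_,
      fun i j hij ht => ?_⟩
    · by_cases h : k ≤ (p j).natDegree
      · exact le_K h (hmemH j k n)
      · rw [hzero j k n (not_le.1 h)]
        exact zero_mem _
    · show (p i).natDegree + (p j).natDegree ≤ (p j).natDegree + (p i).natDegree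
      omega
    · have ht : (p i).natDegree = (p j).natDegree := ht
      have hPmem : ∀ k n, Di k (f i - f j) n ∈ H (p i).natDegree := by
        intro k n
        rw [Di_sub]
        exact AddSubgroup.sub_mem _ (hmemH i k n) (by rw [ht]; exact hmemH j k n)
      have hPzero : ∀ k, (p i).natDegree < k → ∀ n, Di k (f i - f j) n = 0 := by
        intro k hk n
        rw [Di_sub]
        show Di k (f i) n - Di k (f j) n = 0
        rw [hzero i k n hk, hzero j k n (ht ▸ hk), sub_zero]
      have hex : ∃ k, ∀ n, Di (k + 1) (f i - f j) n = 0 :=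
        ⟨(p i).natDegree, hPzero _ (Nat.lt_succ_self _)⟩
      set m' := Nat.find hex with hm'
      have hspec : ∀ n, Di (m' + 1) (f i - f j) n = 0 := Nat.find_spec hex
      have hm'le : m' ≤ (p i).natDegree := Nat.find_min' hex (hPzero _ (Nat.lt_succ_self _))
      have hzero' : ∀ k, m' < k → ∀ n, Di k (f i - f j) n = 0 := by
        intro k hk
        obtain ⟨k, rfl⟩ := Nat.exists_eq_add_of_lt hk
        induction k with
        | zero => exact hspec
        | succ k ih =>
          intro n
          rw [show m' + (k + 1) + 1 = (m' + k + 1) + 1 by ring, Di_succ, ih (by omega),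
            ih (by omega), sub_zero]
      by_cases hm0 : m' = 0
      · exfalso
        have hconst : ∀ n, (f i - f j) n = (f i - f j) 0 := by
          refine const_of_step fun n => ?_
          have := hspec n
          rw [hm0, Di_succ] at this
          exact this
        -- the leading coefficients
        set α := Di (p i).natDegree (fun n => (p i).eval n) 0 with hα
        set β := Di (p j).natDegree (fun n => (p j).eval n) 0 with hβ
        have hα0 : α ≠ 0 := Di_poly_ne _ (hp0 i)
        have hβ0 : β ≠ 0 := Di_poly_ne _ (hp0 j)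
        have h1 : α • e i = β • e j := by
          have h2 := hzero' (p i).natDegree (by have := hdeg i; omega) 0
          rw [Di_sub] at h2
          have h3 : Di (p i).natDegree (f i) 0 - Di (p i).natDegree (f j) 0 = 0 := h2
          rw [hDi, hDi, sub_eq_zero] at h3
          rw [hα, hβ, ← ht]
          exact h3
        have h2 : ∀ n, β * ((p i).eval n - (p i).eval 0) = α * ((p j).eval n - (p j).eval 0) := by
          intro n
          have h3 := hconst n
          have h4 : (p i).eval n • e i - (p j).eval n • e j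
              = (p i).eval 0 • e i - (p j).eval 0 • e j := h3
          have h5 : ((p i).eval n - (p i).eval 0) • e i = ((p j).eval n - (p j).eval 0) • e j := by
            rw [sub_smul, sub_smul]
            have h6 : (p i).eval n • e i = (p i).eval 0 • e i - (p j).eval 0 • e j
                + (p j).eval n • e j := by
              rw [← h4]; abel
            rw [h6]; abel
          by_contra hne
          refine he j _ (sub_ne_zero.2 hne) ?_
          rw [sub_smul, sub_eq_zero]
          calc (β * ((p i).eval n - (p i).eval 0)) • e j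
              = ((p i).eval n - (p i).eval 0) • (β • e j) := by rw [mul_comm, mul_smul]
            _ = ((p i).eval n - (p i).eval 0) • (α • e i) := by rw [h1]
            _ = α • (((p i).eval n - (p i).eval 0) • e i) := by
                rw [smul_comm]
            _ = α • (((p j).eval n - (p j).eval 0) • e j) := by rw [h5]
            _ = (α * ((p j).eval n - (p j).eval 0)) • e j := by rw [mul_smul]
        have h3 : β • p i - α • p j = Polynomial.C (β * (p i).eval 0 - α * (p j).eval 0) := by
          refine Polynomial.funext fun n => ?_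
          simp only [Polynomial.eval_sub, Polynomial.eval_smul, Polynomial.eval_C, smul_eq_mul]
          have := h2 n
          linarith
        have h4 := hind i j hij β (-α) (Or.inl hβ0)
        rw [neg_smul, ← sub_eq_add_neg, h3, Polynomial.natDegree_C] at h4
        exact lt_irrefl _ h4
      · refine ⟨m', Nat.one_le_iff_ne_zero.2 hm0, fun k hk n => ?_, ?_⟩
        · by_cases h : k ≤ m'
          · exact le_K h (hPmem k n)
          · rw [hzero' k (not_le.1 h) n]
            exact zero_mem _
        · intro h0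
          have h1 : ∀ n, Di m' (f i - f j) n = 0 := by
            intro n
            have h2 := const_of_step (g := Di m' (f i - f j)) (fun n => by
              rw [← Di_succ]; exact hspec n) n
            rw [h2]
            exact h0
          obtain ⟨k, hk⟩ := Nat.exists_eq_succ_of_ne_zero hm0
          have h2 : k < m' := by omega
          refine Nat.find_min hex h2 fun n => ?_
          have h3 := h1 n
          rw [hk] at h3
          exact h3
  by_cases hone : ∃ i₀, (p i₀).natDegree = 1 ∧ ∀ i, i ≠ i₀ → (p i).natDegree ≠ 1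
  · obtain ⟨i₀, h1, h2⟩ := hone
    refine pet_one hTF hGood i₀ h1 (fun i hi => ?_) (fun i => rfl) ?_ ?_ U V hU hU' hV hV'
    · have h3 := hdeg i
      have h4 := h2 i hi
      show 2 ≤ (p i).natDegree
      omega
    · -- transitivity of the slope
      have h3 : lc 1 (f i₀) = (Di 1 (fun n => (p i₀).eval n) 0) • e i₀ := hDi i₀ 1 0
      have h4 : Di 1 (fun n => (p i₀).eval n) 0 ≠ 0 := by
        have := Di_poly_ne _ (hp0 i₀)
        rwa [h1] at this
      rw [h3]
      set c := Di 1 (fun n => (p i₀).eval n) 0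
      have h5 := htt i₀ c.natAbs (Int.natAbs_pos.2 h4)
      intro U V hU hU' hV hV'
      obtain ⟨n, hn⟩ := h5 U V hU hU' hV hV'
      rcases Int.natAbs_eq c with h | h
      · refine ⟨n, ?_⟩
        rw [h]
        exact hn
      · refine ⟨-n, ?_⟩
        obtain ⟨x, hx, hx'⟩ := hn
        refine ⟨x, hx, ?_⟩
        rw [h, neg_smul, neg_smul, smul_neg, neg_neg]
        exact hx'
    · intro i hi a ha ha0
      exact hWM _ (Or.inl (h2 i hi)) a ha ha0
  · refine pet hTF _ (Fin ℓ) f _ _ hGood rfl (fun i a ha ha0 => hWM _ ?_ a ha ha0)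
      U V hU hU' hV hV'
    by_cases h1 : (p i).natDegree = 1
    · right
      push Not at hone
      obtain ⟨j, hj, hj'⟩ := hone i h1
      exact ⟨i, j, hj.symm, h1, hj'⟩
    · exact Or.inl h1

end Pool.Agent.W_MP_cae956
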