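import Pool.Agent.W_MP_cae956.Alg

set_option autoImplicit false

/-! # The weights of families of polynomial maps -/

namespace Pool.Agent.W_MP_cae956

theorem dm_lt {R A : Type*} [LinearOrder R] [AddCommGroup A] [DecidableEq A]
    (S S' : Finset (R × A)) (r₀ : R) (c₀ : A) (h₀ : (r₀, c₀) ∈ S)
    (h : ∀ x ∈ S', x.1 < r₀ ∨ (x.1 = r₀ ∧ (r₀, x.2 + c₀) ∈ S ∧ x.2 ≠ 0) ∨ (r₀ < x.1 ∧ x ∈ S)) :
    Multiset.IsDershowitzMannaLT (S'.val.map Prod.fst) (S.val.map Prod.fst) := by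
  classical
  set φ : R × A → R × A := fun x => if x.1 = r₀ then (r₀, x.2 + c₀) else x with hφ
  have hφ1 : ∀ x, (φ x).1 = x.1 := by
    intro x
    simp only [hφ]
    split_ifs with h1
    · exact h1.symm
    · rfl
  have hφinj : Function.Injective φ := by
    rintro x y hxy
    have h1 : x.1 = y.1 := by rw [← hφ1 x, hxy, hφ1 y]
    simp only [hφ] at hxy
    by_cases hx : x.1 = r₀
    · rw [if_pos hx, if_pos (h1 ▸ hx)] at hxy
      have h2 := (Prod.ext_iff.1 hxy).2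
      exact Prod.ext h1 (add_right_cancel h2)
    · rw [if_neg hx, if_neg (h1 ▸ hx)] at hxy
      exact hxy
  set P := S'.filter fun x => r₀ ≤ x.1 with hP
  set Q := S'.filter fun x => ¬ r₀ ≤ x.1 with hQ
  set T := P.image φ with hT
  have hTS : T ⊆ S := by
    intro y hy
    obtain ⟨x, hx, rfl⟩ := Finset.mem_image.1 hy
    obtain ⟨hx1, hx2⟩ := Finset.mem_filter.1 hx
    rcases h x hx1 with h1 | ⟨h1, h2, -⟩ | ⟨h1, h2⟩
    · exact absurd h1 (not_lt.2 hx2)
    · simp only [hφ, if_pos h1]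
      exact h2
    · simp only [hφ, if_neg h1.ne']
      exact h2
  have hT0 : (r₀, c₀) ∉ T := by
    intro hy
    obtain ⟨x, hx, hxe⟩ := Finset.mem_image.1 hy
    obtain ⟨hx1, hx2⟩ := Finset.mem_filter.1 hx
    have hx3 : x.1 = r₀ := by rw [← hφ1 x, hxe]
    rcases h x hx1 with h1 | ⟨h1, h2, h3⟩ | ⟨h1, h2⟩
    · exact absurd h1 (not_lt.2 hx2)
    · simp only [hφ, if_pos h1] at hxe
      exact h3 (add_eq_right.1 (Prod.ext_iff.1 hxe).2)
    · exact absurd hx3 h1.ne'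
  refine ⟨P.val.map Prod.fst, Q.val.map Prod.fst, (S \ T).val.map Prod.fst, ?_, ?_, ?_, ?_⟩
  · intro h0
    have h1 : (r₀, c₀) ∈ S \ T := Finset.mem_sdiff.2 ⟨h₀, hT0⟩
    have h2 : r₀ ∈ (S \ T).val.map Prod.fst := Multiset.mem_map.2 ⟨_, h1, rfl⟩
    rw [h0] at h2
    exact absurd h2 (Multiset.notMem_zero _)
  · rw [← Multiset.map_add]
    congr 1
    rw [hP, hQ, Finset.filter_val, Finset.filter_val, Multiset.filter_add_not]
  · have h1 : P.val.map Prod.fst = T.val.map Prod.fst := by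
      rw [hT, Finset.image_val_of_injOn hφinj.injOn, Multiset.map_map]
      exact Multiset.map_congr rfl fun x _ => (hφ1 x).symm
    rw [h1, ← Multiset.map_add]
    congr 1
    have h2 := Finset.sdiff_union_of_subset hTS
    have h3 : (S \ T).disjUnion T Finset.sdiff_disjoint = S := by
      rw [Finset.disjUnion_eq_union, h2]
    conv_lhs => rw [← h3]
    rw [Finset.disjUnion_val, add_comm]
  · intro y hy
    obtain ⟨x, hx, rfl⟩ := Multiset.mem_map.1 hy
    have hx2 : ¬ r₀ ≤ x.1 := (Finset.mem_filter.1 hx).2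
    exact ⟨r₀, Multiset.mem_map.2 ⟨_, Finset.mem_sdiff.2 ⟨h₀, hT0⟩, rfl⟩, not_le.1 hx2⟩

end Pool.Agent.W_MP_cae956
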