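import Pool.Agent.W_MP_cae956.Dyn
import Pool.Agent.W_MP_cae956.Weight

set_option autoImplicit false

/-! # The PET induction -/

open scoped Pointwise

namespace Pool.Agent.W_MP_cae956

variable {A : Type*} [AddCommGroup A]

/-- Good families of polynomial maps. -/
structure Good (H : ℕ → AddSubgroup A) {ι : Type} (f : ι → ℤ → A) (t m : ι → ℕ) : Prop where
  reg : ∀ i, Reg H (t i) (m i) (f i)
  le : ∀ i, m i ≤ t i
  lev : ∀ i j, t j < t i → t i + m j ≤ t j + m i
  dif : ∀ i j, i ≠ j → t i = t j → ∃ m', Reg H (t i) m' (f i - f j)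

open Classical in
/-- The rank and leading coefficient pairs of a family. -/
noncomputable def pairs {ι : Type} [Fintype ι] (f : ι → ℤ → A) (t m : ι → ℕ) :
    Finset ((ℕ ×ₗ ℕ) × A) :=
  Finset.univ.image fun i => (toLex (t i, m i), lc (m i) (f i))

/-- The weight of a family. -/
noncomputable def wt {ι : Type} [Fintype ι] (f : ι → ℤ → A) (t m : ι → ℕ) : Multiset (ℕ ×ₗ ℕ) :=
  (pairs f t m).val.map Prod.fst

theorem mem_pairs {ι : Type} [Fintype ι] {f : ι → ℤ → A} {t m : ι → ℕ} {x : (ℕ ×ₗ ℕ) × A} :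
    x ∈ pairs f t m ↔ ∃ i, (toLex (t i, m i), lc (m i) (f i)) = x := by
  unfold pairs
  simp

/-- Index set of the derived family. -/
abbrev DIdx {ι : Type} (i₀ : ι) (m : ι → ℕ) (N : ℕ) : Type :=
  {i : ι // i ≠ i₀ ∧ m i = 1} ⊕ ({i : ι // m i ≠ 1} × Fin N)

open Classical in
noncomputable instance didxFintype {ι : Type} [Fintype ι] (i₀ : ι) (m : ι → ℕ) (N : ℕ) :
    Fintype (DIdx i₀ m N) := inferInstance

/-- Original index. -/
def orig {ι : Type} {i₀ : ι} {m : ι → ℕ} {N : ℕ} : DIdx i₀ m N → ι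
  | Sum.inl i => i.1
  | Sum.inr p => p.1.1

/-- Shift attached to an index. -/
def shiftOf {ι : Type} {i₀ : ι} {m : ι → ℕ} {N : ℕ} (s : ℕ → ℤ) : DIdx i₀ m N → ℤ
  | Sum.inl _ => 0
  | Sum.inr p => s p.2

/-- The derived family. -/
def dfam {ι : Type} (f : ι → ℤ → A) (i₀ : ι) (m : ι → ℕ) (N : ℕ) (s : ℕ → ℤ) :
    DIdx i₀ m N → ℤ → A := fun x => shf (shiftOf s x) (f (orig x)) - f i₀

open Classical in
/-- The degrees in the derived family. -/
noncomputable def ddeg {ι : Type} (f : ι → ℤ → A) (t m : ι → ℕ) (i₀ : ι) (i : ι) : ℕ :=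
  if t i = t i₀ ∧ m i = m i₀ ∧ lc (m i) (f i) = lc (m i) (f i₀) then m i - 1 else m i

theorem shf_zero {A : Type*} (f : ℤ → A) : shf 0 f = f := by
  funext n
  show f (n + 0) = f n
  rw [add_zero]

variable {H : ℕ → AddSubgroup A}

theorem ddeg_le {ι : Type} (f : ι → ℤ → A) (t m : ι → ℕ) (i₀ : ι) (i : ι) :
    ddeg f t m i₀ i ≤ m i := by
  unfold ddeg
  split_ifs
  · exact Nat.sub_le _ _
  · exact le_rfl

/-- Regularity of the derived family, together with the control of the leading coefficients. -/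
theorem Good.derived_reg (hH : TF H) {ι : Type} [Fintype ι] {f : ι → ℤ → A} {t m : ι → ℕ}
    (hG : Good H f t m) (i₀ : ι) (hmin : ∀ i, toLex (t i₀, m i₀) ≤ toLex (t i, m i)) :
    ∃ B : ι → Finset ℤ, ∀ i s, (m i = 1 → i ≠ i₀) → (m i ≠ 1 → s ∉ B i) →
      Reg H (t i) (ddeg f t m i₀ i) (shf s (f i) - f i₀) ∧
      (toLex (t i, ddeg f t m i₀ i) < toLex (t i₀, m i₀) ∨
        (toLex (t i, ddeg f t m i₀ i) = toLex (t i₀, m i₀) ∧
          (toLex (t i₀, m i₀), lc (ddeg f t m i₀ i) (shf s (f i) - f i₀) + lc (m i₀) (f i₀)) ∈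
            pairs f t m ∧ lc (ddeg f t m i₀ i) (shf s (f i) - f i₀) ≠ 0) ∨
        (toLex (t i₀, m i₀) < toLex (t i, ddeg f t m i₀ i) ∧
          (toLex (t i, ddeg f t m i₀ i), lc (ddeg f t m i₀ i) (shf s (f i) - f i₀)) ∈
            pairs f t m)) := by
  classical
  have hB : ∀ i, ∃ B : Finset ℤ, (m i ≠ 1 → t i = t i₀ → m i = m i₀ →
      lc (m i) (f i) = lc (m i) (f i₀) → ∀ s ∉ B, lc (m i - 1) (shf s (f i) - f i₀) ≠ 0) := by
    intro i
    by_cases h : m i ≠ 1 ∧ t i = t i₀ ∧ m i = m i₀ ∧ lc (m i) (f i) = lc (m i) (f i₀)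
    · obtain ⟨h1, h2, h3, h4⟩ := h
      have hreg := hG.reg i
      obtain ⟨k, hk⟩ := Nat.exists_eq_add_of_le' hreg.1
      have hC : C H (t i) (k + 1) (f i) := hk ▸ hreg.2.1
      have heq : ∀ s, shf s (f i) - f i₀ = (shf s (f i) - f i) + (f i - f i₀) :=
        fun s => by abel
      have hfin : {s : ℤ | s • lc (k + 1) (f i) + lc k (f i - f i₀) = 0}.Subsingleton := by
        intro s hs s' hs'
        by_contra hne
        have hmt := hG.le i
        refine hH (t i) (by omega) _ (hC.lc_mem (by omega)) (hk ▸ hreg.2.2) (s - s')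
          (sub_ne_zero.2 hne) ?_
        have h5 : s • lc (k + 1) (f i) + lc k (f i - f i₀) = 0 := hs
        have h6 : s' • lc (k + 1) (f i) + lc k (f i - f i₀) = 0 := hs'
        rw [sub_smul, add_right_cancel (h5.trans h6.symm), sub_self]
      refine ⟨hfin.finite.toFinset, fun _ _ _ _ s hs => ?_⟩
      rw [hk, Nat.add_sub_cancel, heq, lc_add, hC.lc_diff]
      intro h0
      exact hs (hfin.finite.mem_toFinset.2 h0)
    · refine ⟨∅, fun h1 h2 h3 h4 => absurd ⟨h1, h2, h3, h4⟩ h⟩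
  choose B hB using hB
  refine ⟨B, fun i s hi1 hi2 => ?_⟩
  have hreg := hG.reg i
  have hreg0 := hG.reg i₀
  have hg : C H (t i) (m i) (f i₀) := by
    rcases Prod.Lex.toLex_le_toLex.1 (hmin i) with h | ⟨h, h'⟩
    · exact hreg0.2.1.up h.le (hG.lev i i₀ h)
    · have h : t i₀ = t i := h
      have h' : m i₀ ≤ m i := h'
      rw [← h]
      exact hreg0.2.1.mono h'
  by_cases hc : t i = t i₀ ∧ m i = m i₀ ∧ lc (m i) (f i) = lc (m i) (f i₀)
  · -- same rank, same leading coefficient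
    have hd : ddeg f t m i₀ i = m i - 1 := by unfold ddeg; rw [if_pos hc]
    rw [hd]
    obtain ⟨h1, h2, h3⟩ := hc
    have hlt : m i - 1 < m i₀ := by
      have := hreg0.1
      omega
    have key : 1 ≤ m i - 1 ∧ C H (t i) (m i - 1) (f i - f i₀) := by
      by_cases hii : i = i₀
      · refine ⟨?_, ?_⟩
        · have := hreg.1
          have h4 : m i ≠ 1 := fun h5 => hi1 h5 hii
          omega
        · rw [hii, sub_self]
          exact C_const _ _ 0
      · obtain ⟨m'', hm''⟩ := hG.dif i i₀ hii h1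
        have h4 : m'' ≤ m i := hm''.le (hreg.2.1.sub hg)
        have h5 : m'' ≠ m i := by
          rintro rfl
          apply hm''.2.2
          rw [lc_sub, h3, sub_self]
        have h6 := hm''.1
        exact ⟨by omega, hm''.2.1.mono (by omega)⟩
    have hm1 : m i ≠ 1 := by have := key.1; omega
    refine ⟨⟨key.1, ?_, hB i hm1 h1 h2 h3 s (hi2 hm1)⟩, Or.inl ?_⟩
    · have h7 : shf s (f i) - f i₀ = (shf s (f i) - f i) + (f i - f i₀) := by abel
      rw [h7]
      have h8 : C H (t i) (m i - 1 + 1) (f i) := by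
        rw [Nat.sub_add_cancel hreg.1]
        exact hreg.2.1
      exact (h8.diff s).add key.2
    · rw [h1]
      exact Prod.Lex.toLex_lt_toLex.2 (Or.inr ⟨rfl, hlt⟩)
  · have hd : ddeg f t m i₀ i = m i := by unfold ddeg; rw [if_neg hc]
    rw [hd]
    have hlc : lc (m i) (shf s (f i) - f i₀) = lc (m i) (f i) - lc (m i) (f i₀) := by
      rw [lc_sub, hreg.2.1.lc_sh]
    have hCF : C H (t i) (m i) (shf s (f i) - f i₀) := (hreg.2.1.sh s).sub hg
    rcases eq_or_lt_of_le (hmin i) with hr | hr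
    · have h1 : t i₀ = t i := (Prod.ext_iff.1 (toLex.injective hr)).1
      have h2 : m i₀ = m i := (Prod.ext_iff.1 (toLex.injective hr)).2
      have hne : lc (m i) (shf s (f i) - f i₀) ≠ 0 := by
        rw [hlc, sub_ne_zero]
        exact fun h3 => hc ⟨h1.symm, h2.symm, h3⟩
      refine ⟨⟨hreg.1, hCF, hne⟩, Or.inr (Or.inl ⟨hr.symm, ?_, hne⟩)⟩
      rw [hlc, h2, sub_add_cancel, mem_pairs]
      exact ⟨i, by rw [h1]⟩
    · have h0 : lc (m i) (f i₀) = 0 := by
        rcases Prod.Lex.toLex_lt_toLex.1 hr with h | ⟨h, h'⟩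
        · exact hreg0.2.1.lc_eq_zero' hreg.1 h (hG.lev i i₀ h)
        · exact hreg0.2.1.lc_eq_zero h'
      rw [h0, sub_zero] at hlc
      refine ⟨⟨hreg.1, hCF, by rw [hlc]; exact hreg.2.2⟩, Or.inr (Or.inr ⟨hr, ?_⟩)⟩
      rw [hlc, mem_pairs]
      exact ⟨i, rfl⟩

theorem shf_sub (s : ℤ) (f g : ℤ → A) : shf s (f - g) = shf s f - shf s g := rfl

theorem shf_shf {A : Type*} (s r : ℤ) (f : ℤ → A) : shf s (shf r f) = shf (s + r) f := by
  funext n
  show f (n + s + r) = f (n + (s + r))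
  rw [add_assoc]

/-- The derived family is good and has smaller weight. -/
theorem Good.derived (hH : TF H) {ι : Type} [Fintype ι] {f : ι → ℤ → A} {t m : ι → ℕ}
    (hG : Good H f t m) (i₀ : ι) (hmin : ∀ i, toLex (t i₀, m i₀) ≤ toLex (t i, m i)) :
    ∃ B : Finset ℤ, ∀ (N : ℕ) (s : ℕ → ℤ), (∀ k < N, s k ∉ B) →
      (∀ k < N, ∀ l < N, k ≠ l → s k - s l ∉ B) →
      Good H (dfam f i₀ m N s) (fun x => t (orig x)) (fun x => ddeg f t m i₀ (orig x)) ∧
      Multiset.IsDershowitzMannaLT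
        (wt (dfam f i₀ m N s) (fun x => t (orig x)) (fun x => ddeg f t m i₀ (orig x)))
        (wt f t m) := by
  classical
  obtain ⟨B1, hB1⟩ := hG.derived_reg hH i₀ hmin
  have hB2 : ∀ i j, ∃ B : Finset ℤ, (i ≠ j → t i = t j → ∀ s ∉ B,
      ∃ m', Reg H (t i) m' (shf s (f i) - f j)) := by
    intro i j
    by_cases h : i ≠ j ∧ t i = t j
    · obtain ⟨m', hm'⟩ := hG.dif i j h.1 h.2
      obtain ⟨B, hB⟩ := (hG.reg i).shift_sub hH (hG.le i) hm'
      exact ⟨B, fun _ _ => hB⟩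
    · exact ⟨∅, fun h1 h2 => absurd ⟨h1, h2⟩ h⟩
  choose B2 hB2 using hB2
  set B : Finset ℤ := (Finset.univ.biUnion B1 ∪
    (Finset.univ.biUnion fun i => Finset.univ.biUnion fun j => B2 i j)) ∪ {0} with hB
  have hBB1 : ∀ s ∉ B, ∀ i, s ∉ B1 i := by
    intro s hs i hi
    apply hs
    rw [hB]
    exact Finset.mem_union_left _ (Finset.mem_union_left _
      (Finset.mem_biUnion.2 ⟨i, Finset.mem_univ i, hi⟩))
  have hBB2 : ∀ s ∉ B, ∀ i j, s ∉ B2 i j := by
    intro s hs i j hi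
    apply hs
    rw [hB]
    exact Finset.mem_union_left _ (Finset.mem_union_right _
      (Finset.mem_biUnion.2 ⟨i, Finset.mem_univ i,
        Finset.mem_biUnion.2 ⟨j, Finset.mem_univ j, hi⟩⟩))
  have hB0 : ∀ s ∉ B, s ≠ 0 := by
    rintro s hs rfl
    apply hs
    rw [hB]
    exact Finset.mem_union_right _ (Finset.mem_singleton_self 0)
  refine ⟨B, fun N s hs1 hs2 => ?_⟩
  have hreg : ∀ x : DIdx i₀ m N, Reg H (t (orig x)) (ddeg f t m i₀ (orig x))
      (dfam f i₀ m N s x) ∧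
      (toLex (t (orig x), ddeg f t m i₀ (orig x)) < toLex (t i₀, m i₀) ∨
        (toLex (t (orig x), ddeg f t m i₀ (orig x)) = toLex (t i₀, m i₀) ∧
          (toLex (t i₀, m i₀), lc (ddeg f t m i₀ (orig x)) (dfam f i₀ m N s x) +
            lc (m i₀) (f i₀)) ∈ pairs f t m ∧
              lc (ddeg f t m i₀ (orig x)) (dfam f i₀ m N s x) ≠ 0) ∨
        (toLex (t i₀, m i₀) < toLex (t (orig x), ddeg f t m i₀ (orig x)) ∧
          (toLex (t (orig x), ddeg f t m i₀ (orig x)),
            lc (ddeg f t m i₀ (orig x)) (dfam f i₀ m N s x)) ∈ pairs f t m)) := by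
    rintro (i | ⟨i, k⟩)
    · exact hB1 i.1 0 (fun _ => i.2.1) (fun h => absurd i.2.2 h)
    · exact hB1 i.1 (s k) (fun h => absurd h i.2) (fun _ => hBB1 _ (hs1 k k.2) _)
  refine ⟨⟨fun x => (hreg x).1, fun x => (ddeg_le _ _ _ _ _).trans (hG.le _), ?_, ?_⟩, ?_⟩
  · intro x y hxy
    have h0 : t i₀ ≤ t (orig y) := by
      rcases Prod.Lex.toLex_le_toLex.1 (hmin (orig y)) with h | ⟨h, -⟩
      · exact le_of_lt h
      · exact le_of_eq h
    have h1 : ddeg f t m i₀ (orig x) = m (orig x) := by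
      unfold ddeg
      rw [if_neg]
      rintro ⟨h2, -⟩
      have h3 : t (orig y) < t (orig x) := hxy
      omega
    have h2 := ddeg_le f t m i₀ (orig y)
    have h3 := hG.lev (orig x) (orig y) hxy
    show t (orig x) + ddeg f t m i₀ (orig y) ≤ t (orig y) + ddeg f t m i₀ (orig x)
    rw [h1]
    omega
  · intro x y hxy ht
    have ht : t (orig x) = t (orig y) := ht
    have hd : dfam f i₀ m N s x - dfam f i₀ m N s y
        = shf (shiftOf s x) (f (orig x)) - shf (shiftOf s y) (f (orig y)) := by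
      unfold dfam
      abel
    rw [hd]
    show ∃ m', Reg H (t (orig x)) m' _
    have hsh : ∀ r r' : ℤ, ∀ g g' : ℤ → A, shf r g - shf r' g' = shf r' (shf (r - r') g - g') := by
      intro r r' g g'
      rw [shf_sub, shf_shf]
      congr 2
      ring
    by_cases hij : orig x = orig y
    · -- same original member
      have hkl : m (orig x) ≠ 1 ∧ shiftOf s x - shiftOf s y ≠ 0 := by
        rcases x with (i | ⟨i, k⟩) <;> rcases y with (j | ⟨j, l⟩)
        · exact absurd (congrArg Sum.inl (Subtype.ext hij)) hxy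
        · exact absurd i.2.2 (by
            have h1 : i.1 = j.1 := hij
            rw [h1]; exact j.2)
        · exact absurd j.2.2 (by
            have h1 : i.1 = j.1 := hij
            rw [← h1]; exact i.2)
        · refine ⟨i.2, ?_⟩
          have hkl : k ≠ l := by
            rintro rfl
            exact hxy (congrArg Sum.inr (Prod.ext (Subtype.ext hij) rfl))
          exact hB0 _ (hs2 k k.2 l l.2 (fun h => hkl (Fin.ext h)))
      have hreg0 := hG.reg (orig x)
      obtain ⟨k, hk⟩ := Nat.exists_eq_add_of_le' hreg0.1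
      have hC : C H (t (orig x)) (k + 1) (f (orig x)) := hk ▸ hreg0.2.1
      refine ⟨k, ?_⟩
      rw [hsh, ← hij]
      refine Reg.sh ⟨?_, hC.diff _, ?_⟩ _
      · have := hkl.1
        omega
      · rw [hC.lc_diff]
        have hmt := hG.le (orig x)
        have hk1 := hkl.1
        exact hH _ (by omega) _ (hC.lc_mem (by omega)) (hk ▸ hreg0.2.2) _ hkl.2
    · have hcases : shiftOf s x = shiftOf s y ∨ shiftOf s x - shiftOf s y ∉ B ∨
          shiftOf s y - shiftOf s x ∉ B := by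
        rcases x with (i | ⟨i, k⟩) <;> rcases y with (j | ⟨j, l⟩)
        · exact Or.inl rfl
        · refine Or.inr (Or.inr ?_)
          show s l - 0 ∉ B
          rw [sub_zero]
          exact hs1 l l.2
        · refine Or.inr (Or.inl ?_)
          show s k - 0 ∉ B
          rw [sub_zero]
          exact hs1 k k.2
        · by_cases hkl : k = l
          · subst hkl
            exact Or.inl rfl
          · exact Or.inr (Or.inl (hs2 k k.2 l l.2 (fun h => hkl (Fin.ext h))))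
      rcases hcases with h | h | h
      · obtain ⟨m', hm'⟩ := hG.dif _ _ hij ht
        refine ⟨m', ?_⟩
        rw [h, ← shf_sub]
        exact hm'.sh _
      · obtain ⟨m', hm'⟩ := hB2 _ _ hij ht _ (hBB2 _ h _ _)
        refine ⟨m', ?_⟩
        rw [hsh]
        exact hm'.sh _
      · obtain ⟨m', hm'⟩ := hB2 _ _ (Ne.symm hij) ht.symm _ (hBB2 _ h _ _)
        refine ⟨m', ?_⟩
        rw [← neg_sub, hsh, ht]
        exact (hm'.sh _).neg
  · refine dm_lt _ _ (toLex (t i₀, m i₀)) (lc (m i₀) (f i₀)) (mem_pairs.2 ⟨i₀, rfl⟩) ?_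
    intro z hz
    obtain ⟨x, rfl⟩ := mem_pairs.1 hz
    exact (hreg x).2

/-- One step of the PET induction. -/
theorem pet_step {X : Type*} [TopologicalSpace X] [AddAction A X] [ContinuousConstVAdd A X]
    [CompactSpace X] [AddAction.IsMinimal A X] (hH : TF H)
    {ι : Type} [Fintype ι] {f : ι → ℤ → A} {t m : ι → ℕ} (hG : Good H f t m)
    (i₀ : ι) (hmin : ∀ i, toLex (t i₀, m i₀) ≤ toLex (t i, m i))
    (hJR : JR X fun i : {i : ι // m i = 1} => lc 1 (f i.1))
    (hder : ∀ (N : ℕ) (s : ℕ → ℤ),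
      Good H (dfam f i₀ m N s) (fun x => t (orig x)) (fun x => ddeg f t m i₀ (orig x)) →
      Multiset.IsDershowitzMannaLT
        (wt (dfam f i₀ m N s) (fun x => t (orig x)) (fun x => ddeg f t m i₀ (orig x)))
        (wt f t m) →
      ∀ (U : Set X) (V : DIdx i₀ m N → Set X), IsOpen U → U.Nonempty → (∀ i, IsOpen (V i)) →
        (∀ i, (V i).Nonempty) → ∃ (n : ℤ) (x : X), x ∈ U ∧ ∀ i, dfam f i₀ m N s i n +ᵥ x ∈ V i)
    (U : Set X) (V : ι → Set X) (hU : IsOpen U) (hU' : U.Nonempty) (hV : ∀ i, IsOpen (V i))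
    (hV' : ∀ i, (V i).Nonempty) : ∃ (n : ℤ) (x : X), x ∈ U ∧ ∀ i, f i n +ᵥ x ∈ V i := by
  classical
  obtain ⟨B, hB⟩ := hG.derived hH i₀ hmin
  -- the cover
  obtain ⟨F, hF⟩ := isCompact_univ.exists_finite_cover_vadd A hU hU'
  set h : ℕ → A := fun k => F.toList.getD k 0 with hh
  set N := F.toList.length with hN
  have hcov : ∀ z : X, ∃ k < N, z ∈ h k +ᵥ U := by
    intro z
    have h1 := hF (Set.mem_univ z)
    simp only [Set.mem_iUnion] at h1
    obtain ⟨g, hg, hz⟩ := h1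
    obtain ⟨k, hk, hgk⟩ := List.getElem_of_mem (Finset.mem_toList.2 hg)
    refine ⟨k, hk, ?_⟩
    have : h k = g := by
      rw [hh]
      show F.toList.getD k 0 = g
      rw [List.getD_eq_getElem _ _ hk, hgk]
    rw [this]
    exact hz
  -- the shifts
  obtain ⟨s, hs1, hs2, O, hO⟩ := select (X := X) (ι := {i : ι // m i = 1})
    (fun i => lc 1 (f i.1)) hJR
    (fun i => V i.1) (fun i => hV i.1) (fun i => hV' i.1) h B N
  obtain ⟨hG', hlt⟩ := hB N s hs1 hs2
  set U' : Set X := if hm : m i₀ = 1 then O ⟨i₀, hm⟩ else Set.univ with hU'def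
  have hU'o : IsOpen U' := by
    rw [hU'def]
    split_ifs with hm
    · exact (hO _).1
    · exact isOpen_univ
  have hU'n : U'.Nonempty := by
    rw [hU'def]
    split_ifs with hm
    · exact (hO _).2.1
    · obtain ⟨x, -⟩ := hU'
      exact ⟨x, Set.mem_univ x⟩
  set V' : DIdx i₀ m N → Set X := fun x => match x with
    | Sum.inl i => O ⟨i.1, i.2.2⟩
    | Sum.inr p => h p.2 +ᵥ V p.1.1 with hV'def
  have hV'o : ∀ x, IsOpen (V' x) := by
    rintro (i | ⟨i, k⟩)
    · exact (hO _).1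
    · exact (hV _).vadd _
  have hV'n : ∀ x, (V' x).Nonempty := by
    rintro (i | ⟨i, k⟩)
    · exact (hO _).2.1
    · exact (hV' _).vadd_set
  obtain ⟨n, w, hw, hw'⟩ := hder N s hG' hlt U' V' hU'o hU'n hV'o hV'n
  set z : X := -(f i₀ n) +ᵥ w with hz
  have hzw : f i₀ n +ᵥ z = w := by rw [hz, vadd_vadd, add_neg_cancel, zero_vadd]
  have key : ∀ i, ∀ k < N, f i (n + s k) +ᵥ z ∈ h k +ᵥ V i := by
    intro i k hk
    by_cases hm : m i = 1
    · have hreg := hG.reg i
      rw [hm] at hreg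
      have haff : f i (n + s k) = s k • lc 1 (f i) + f i n := by
        rw [hreg.2.1.affine (n + s k), hreg.2.1.affine n, add_smul]
        abel
      rw [haff, ← vadd_vadd]
      have hin : f i n +ᵥ z ∈ O ⟨i, hm⟩ := by
        by_cases hii : i = i₀
        · subst hii
          rw [hzw]
          rw [hU'def, dif_pos hm] at hw
          exact hw
        · have h1 := hw' (Sum.inl ⟨i, hii, hm⟩)
          have h2 : dfam f i₀ m N s (Sum.inl ⟨i, hii, hm⟩) n = f i n - f i₀ n := by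
            show f i (n + 0) - f i₀ n = _
            rw [add_zero]
          rw [h2, ← hzw, vadd_vadd, sub_add_cancel] at h1
          exact h1
      exact (hO ⟨i, hm⟩).2.2 _ hin k hk
    · have h1 := hw' (Sum.inr (⟨i, hm⟩, ⟨k, hk⟩))
      have h2 : dfam f i₀ m N s (Sum.inr (⟨i, hm⟩, ⟨k, hk⟩)) n = f i (n + s k) - f i₀ n := rfl
      rw [h2, ← hzw, vadd_vadd, sub_add_cancel] at h1
      exact h1
  obtain ⟨k, hk, x, hx, hxz⟩ := hcov z
  have hxz : h k +ᵥ x = z := hxz
  refine ⟨n + s k, x, hx, fun i => ?_⟩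
  have h1 := key i k hk
  rw [← hxz, vadd_vadd, add_comm, ← vadd_vadd, Set.vadd_mem_vadd_set_iff] at h1
  exact h1

/-- The PET theorem: good families are jointly transitive. -/
theorem pet {X : Type*} [TopologicalSpace X] [AddAction A X] [ContinuousConstVAdd A X]
    [CompactSpace X] [AddAction.IsMinimal A X] (hH : TF H) (M : Multiset (ℕ ×ₗ ℕ)) :
    ∀ (ι : Type) [Fintype ι] (f : ι → ℤ → A) (t m : ι → ℕ), Good H f t m → wt f t m = M →
      (∀ i, ∀ a ∈ H (t i), a ≠ 0 → WM X a) →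
      ∀ (U : Set X) (V : ι → Set X), IsOpen U → U.Nonempty → (∀ i, IsOpen (V i)) →
        (∀ i, (V i).Nonempty) → ∃ (n : ℤ) (x : X), x ∈ U ∧ ∀ i, f i n +ᵥ x ∈ V i := by
  classical
  have wf : WellFounded (Multiset.IsDershowitzMannaLT (α := ℕ ×ₗ ℕ)) :=
    Multiset.wellFounded_isDershowitzMannaLT
  induction M using wf.induction with
  | _ M IH =>
  intro ι _ f t m hG hM hWM U V hU hU' hV hV'
  by_cases hι : IsEmpty ι
  · obtain ⟨x, hx⟩ := hU'
    exact ⟨0, x, hx, fun i => hι.elim i⟩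
  rw [not_isEmpty_iff] at hι
  obtain ⟨i₀, -, hmin⟩ := Finset.exists_min_image Finset.univ
    (fun i => toLex (t i, m i)) Finset.univ_nonempty
  have hmin : ∀ i, toLex (t i₀, m i₀) ≤ toLex (t i, m i) := fun i => hmin i (Finset.mem_univ i)
  refine pet_step hH hG i₀ hmin (JR_of_WM fun i => ?_) ?_ U V hU hU' hV hV'
  · have h1 := hG.reg i.1
    rw [i.2] at h1
    exact hWM _ _ (h1.2.1.lc_mem le_rfl) h1.2.2
  · intro N s hG' hlt
    rw [hM] at hlt
    exact @IH _ hlt (DIdx i₀ m N) (didxFintype i₀ m N) _ _ _ hG' rfl fun i => hWM (orig i)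

/-- Variant of the PET theorem in which there is exactly one member of type one, whose slope is
only assumed to be transitive. -/
theorem pet_one {X : Type*} [TopologicalSpace X] [AddAction A X] [ContinuousConstVAdd A X]
    [CompactSpace X] [AddAction.IsMinimal A X] (hH : TF H)
    {ι : Type} [Fintype ι] {f : ι → ℤ → A} {t m : ι → ℕ} (hG : Good H f t m)
    (i₀ : ι) (hi₀ : t i₀ = 1) (hne : ∀ i, i ≠ i₀ → 2 ≤ t i) (htm : ∀ i, t i = m i)
    (hT : Tra X (lc 1 (f i₀))) (hWM : ∀ i, i ≠ i₀ → ∀ a ∈ H (t i), a ≠ 0 → WM X a)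
    (U : Set X) (V : ι → Set X) (hU : IsOpen U) (hU' : U.Nonempty) (hV : ∀ i, IsOpen (V i))
    (hV' : ∀ i, (V i).Nonempty) : ∃ (n : ℤ) (x : X), x ∈ U ∧ ∀ i, f i n +ᵥ x ∈ V i := by
  classical
  have hm1 : ∀ i, m i = 1 → i = i₀ := by
    intro i hi
    by_contra hcon
    have := hne i hcon
    have := htm i
    omega
  have hmin : ∀ i, toLex (t i₀, m i₀) ≤ toLex (t i, m i) := by
    intro i
    by_cases h : i = i₀
    · rw [h]
    · refine Prod.Lex.toLex_le_toLex.2 (Or.inl ?_)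
      have := hne i h
      show t i₀ < t i
      omega
  refine pet_step hH hG i₀ hmin ?_ ?_ U V hU hU' hV hV'
  · haveI : Subsingleton {i : ι // m i = 1} :=
      ⟨fun i j => Subtype.ext ((hm1 _ i.2).trans (hm1 _ j.2).symm)⟩
    refine JR_of_Tra fun i => ?_
    rw [hm1 _ i.2]
    exact hT
  · intro N s hG' hlt
    refine pet hH _ (DIdx i₀ m N) _ _ _ hG' rfl fun x => hWM (orig x) ?_
    rcases x with (i | ⟨i, k⟩)
    · exact i.2.1
    · intro h
      apply i.2
      have h1 : i.1 = i₀ := h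
      rw [h1, ← htm, hi₀]

end Pool.Agent.W_MP_cae956
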